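import Mathlib

set_option autoImplicit false

universe u v

open MulOpposite

namespace Pool.Agent.Lib.MP_c3b2eb_al

/-- The family `𝓜` of additive subgroups is a `ℤ`-grading of the right `R`-module `M`, where `R`
carries the grading `𝒜`: `M` is the internal direct sum of the `𝓜 i`, and
`𝓜 i * 𝒜 j ⊆ 𝓜 (i + j)`. Right `R`-modules are modules over `Rᵐᵒᵖ`, where `op r • m` is the
product of `m` by `r` on the right. -/
structure IsGrading {R : Type u} [Ring R] (𝒜 : ℤ → AddSubgroup R) {M : Type v} [AddCommGroup M]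
    [Module Rᵐᵒᵖ M] (𝓜 : ℤ → AddSubgroup M) : Prop where
  isInternal : DirectSum.IsInternal 𝓜
  smul_mem : ∀ (i j : ℤ), ∀ m ∈ 𝓜 i, ∀ r ∈ 𝒜 j, op r • m ∈ 𝓜 (i + j)

/-- A right `R`-module is gradable if it is isomorphic to the underlying module of a graded right
`R`-module. -/
def Gradable {R : Type u} [Ring R] (𝒜 : ℤ → AddSubgroup R) (N : Type v) [AddCommGroup N]
    [Module Rᵐᵒᵖ N] : Prop :=
  ∃ (M : Type v) (_ : AddCommGroup M) (_ : Module Rᵐᵒᵖ M) (𝓜 : ℤ → AddSubgroup M),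
    IsGrading 𝒜 𝓜 ∧ Nonempty (N ≃ₗ[Rᵐᵒᵖ] M)

/-- `f : C → N` is a right approximation of `N` by finitely generated gradable right modules:
`C` is finitely generated and gradable, and every homomorphism from a finitely generated gradable
right module to `N` factors through `f`. -/
def IsRightGradableApproximation {R : Type u} [Ring R] (𝒜 : ℤ → AddSubgroup R)
    {C N : Type v} [AddCommGroup C] [Module Rᵐᵒᵖ C] [AddCommGroup N] [Module Rᵐᵒᵖ N]
    (f : C →ₗ[Rᵐᵒᵖ] N) : Prop :=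
  Module.Finite Rᵐᵒᵖ C ∧ Gradable 𝒜 C ∧
    ∀ (C' : Type v) [AddCommGroup C'] [Module Rᵐᵒᵖ C'], Module.Finite Rᵐᵒᵖ C' → Gradable 𝒜 C' →
      ∀ g : C' →ₗ[Rᵐᵒᵖ] N, ∃ h : C' →ₗ[Rᵐᵒᵖ] C, g = f ∘ₗ h

end Pool.Agent.Lib.MP_c3b2eb_al
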