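import Mathlib

set_option autoImplicit false

universe u v w

namespace Pool.Agent.Lib.MP_c3b2eb_al

variable {A : Type u} [Ring A] (𝒜 : ℤ → AddSubgroup A)

/-- A grading on a left module over a graded ring, given by its projections. -/
structure Grading (M : Type v) [AddCommGroup M] [Module A M] where
  p : ℤ → M →+ M
  p_self : ∀ i m, p i (p i m) = p i m
  p_ne : ∀ i j m, i ≠ j → p i (p j m) = 0
  p_smul : ∀ i j (a : A) m, a ∈ 𝒜 i → p (i + j) (a • m) = a • p j m
  fin : ∀ m, ∃ s : Finset ℤ, m = ∑ i ∈ s, p i m

variable {𝒜}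

namespace Grading

section basic

variable {M : Type v} [AddCommGroup M] [Module A M] (g : Grading 𝒜 M)

lemma p_p (i j : ℤ) (m : M) : g.p i (g.p j m) = if i = j then g.p j m else 0 := by
  split_ifs with h
  · subst h; exact g.p_self i m
  · exact g.p_ne i j m h

/-- The degrees of an element. -/
lemma finite_supp (m : M) : {i | g.p i m ≠ 0}.Finite := by
  obtain ⟨s, hs⟩ := g.fin m
  refine s.finite_toSet.subset ?_
  intro i hi
  by_contra hn
  apply hi
  rw [hs, map_sum]
  refine Finset.sum_eq_zero ?_
  intro j hj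
  refine g.p_ne i j m ?_
  rintro rfl
  exact hn hj

lemma sum_eq {m : M} {s : Finset ℤ} (h : ∀ i, i ∉ s → g.p i m = 0) : ∑ i ∈ s, g.p i m = m := by
  obtain ⟨t, ht⟩ := g.fin m
  have h1 : ∑ i ∈ s ∪ t, g.p i m = ∑ i ∈ s, g.p i m :=
    (Finset.sum_subset Finset.subset_union_left (fun i _ hi => h i hi)).symm
  have h2 : ∑ i ∈ s ∪ t, g.p i m = ∑ i ∈ t, g.p i m := by
    refine (Finset.sum_subset Finset.subset_union_right (fun i _ hi => ?_)).symm
    rw [ht, map_sum]
    refine Finset.sum_eq_zero ?_
    intro j hj
    refine g.p_ne i j m ?_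
    rintro rfl
    exact hi hj
  rw [← h1, h2, ← ht]

lemma ext_p {x y : M} (h : ∀ i, g.p i x = g.p i y) : x = y := by
  obtain ⟨s, hs⟩ := g.fin x
  obtain ⟨t, ht⟩ := g.fin y
  have hx := g.sum_eq (m := x) (s := s ∪ t) (by
    intro i hi
    rw [hs, map_sum]
    refine Finset.sum_eq_zero ?_
    intro j hj
    refine g.p_ne i j x ?_
    rintro rfl
    exact hi (Finset.mem_union_left _ hj))
  have hy := g.sum_eq (m := y) (s := s ∪ t) (by
    intro i hi
    rw [ht, map_sum]
    refine Finset.sum_eq_zero ?_
    intro j hj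
    refine g.p_ne i j y ?_
    rintro rfl
    exact hi (Finset.mem_union_right _ hj))
  rw [← hx, ← hy]
  exact Finset.sum_congr rfl (fun i _ => h i)

lemma p_smul' (i k : ℤ) (a : A) (m : M) (ha : a ∈ 𝒜 i) :
    g.p k (a • m) = a • g.p (k - i) m := by
  have := g.p_smul i (k - i) a m ha
  rwa [add_sub_cancel] at this

/-- The set of degrees in which a submodule has nonzero components. -/
def supp (W : Submodule A M) : Set ℤ := {i | ∃ x ∈ W, g.p i x ≠ 0}

/-- Homogeneous submodules. -/
def Homog (W : Submodule A M) : Prop := ∀ i, ∀ x ∈ W, g.p i x ∈ W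

lemma supp_mono {W W' : Submodule A M} (h : W ≤ W') : g.supp W ⊆ g.supp W' := by
  rintro i ⟨x, hx, hi⟩
  exact ⟨x, h hx, hi⟩

lemma homog_sSup (S : Set (Submodule A M)) (h : ∀ W ∈ S, g.Homog W) : g.Homog (sSup S) := by
  intro i x hx
  rw [sSup_eq_iSup'] at hx ⊢
  induction hx using Submodule.iSup_induction' with
  | mem W x hx => exact Submodule.mem_iSup_of_mem W (h W.1 W.2 i x hx)
  | zero => simp
  | add x y _ _ hx hy => rw [map_add]; exact add_mem hx hy

lemma supp_sSup_finset (S : Finset (Submodule A M)) (h : ∀ W ∈ S, (g.supp W).Finite) :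
    (g.supp (sSup (S : Set (Submodule A M)))).Finite := by
  classical
  refine ((Set.Finite.biUnion (t := fun W => g.supp W) S.finite_toSet
    (fun W hW => h W hW))).subset ?_
  rintro i ⟨x, hx, hi⟩
  by_contra hn
  apply hi
  simp only [Set.mem_iUnion, not_exists, supp, Set.mem_ofPred_eq, not_and, not_not] at hn
  rw [sSup_eq_iSup'] at hx
  induction hx using Submodule.iSup_induction' with
  | mem W x hx => exact hn W.1 W.2 x hx
  | zero => simp
  | add x y _ _ hx hy => 
    rw [map_add]
    by_cases h1 : g.p i x = 0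
    · by_cases h2 : g.p i y = 0
      · rw [h1, h2, add_zero]
      · exact absurd (hy h2) h2
    · exact absurd (hx h1) h1

/-- Restriction of a grading to a homogeneous submodule. -/
def restrict {W : Submodule A M} (hW : g.Homog W) : Grading 𝒜 W where
  p i := 
    { toFun := fun x => ⟨g.p i x, hW i x x.2⟩
      map_zero' := by ext; simp
      map_add' := by intro x y; ext; simp }
  p_self i m := by ext; exact g.p_self i m
  p_ne i j m h := by ext; exact g.p_ne i j m h
  p_smul i j a m ha := by ext; exact g.p_smul i j a m ha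
  fin m := by
    obtain ⟨s, hs⟩ := g.fin m
    refine ⟨s, ?_⟩
    ext
    rw [hs]
    simp only [AddMonoidHom.coe_mk, ZeroHom.coe_mk, AddSubmonoidClass.coe_finsetSum]

@[simp] lemma restrict_p {W : Submodule A M} (hW : g.Homog W) (i : ℤ) (x : W) :
    (((g.restrict hW).p i x : W) : M) = g.p i x := rfl

end basic

end Grading

/-- Homogeneous linear maps of degree `d`. -/
def HomDeg {M : Type v} [AddCommGroup M] [Module A M] {M' : Type w} [AddCommGroup M'] [Module A M']
    (g : Grading 𝒜 M) (g' : Grading 𝒜 M') (d : ℤ) (f : M →ₗ[A] M') : Prop :=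
  ∀ i x, g'.p (i + d) (f x) = f (g.p i x)

section nilp

variable {M : Type v} [AddCommGroup M] [Module A M] (g : Grading 𝒜 M)

lemma HomDeg.pow_apply {d : ℤ} {ψ : M →ₗ[A] M} (h : HomDeg g g d ψ) (n : ℕ) (i : ℤ) (x : M) :
    g.p (i + n * d) ((ψ ^ n) x) = (ψ ^ n) (g.p i x) := by
  induction n generalizing i x with
  | zero => simp
  | succ n ih =>
    rw [pow_succ, Module.End.mul_apply, Module.End.mul_apply]
    have : i + ((n + 1 : ℕ) : ℤ) * d = (i + d) + n * d := by push_cast; ring
    rw [this, ih, h]

/-- A homogeneous endomorphism of nonzero degree of a graded module of finite length is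
nilpotent. -/
theorem nilpotent_of_deg_ne_zero [IsArtinian A M] [Module.Finite A M] {d : ℤ} (hd : d ≠ 0)
    {ψ : M →ₗ[A] M} (h : HomDeg g g d ψ) : ∃ n : ℕ, ψ ^ n = 0 := by
  -- far translates vanish
  have far : ∀ (x : M) (m : ℤ), ∃ r : ℕ, g.p (m + r * d) x = 0 := by
    intro x m
    by_contra hcon
    push Not at hcon
    have hinj : Function.Injective (fun r : ℕ => m + r * d) := by
      intro a b hab
      simp only [add_right_inj, mul_eq_mul_right_iff, Nat.cast_inj] at hab
      tauto
    exact Set.infinite_range_of_injective hinj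
      ((g.finite_supp x).subset (by rintro _ ⟨r, rfl⟩; exact hcon r))
  have far' : ∀ (x : M) (m : ℤ), ∃ r : ℕ, g.p (m - r * d) x = 0 := by
    intro x m
    by_contra hcon
    push Not at hcon
    have hinj : Function.Injective (fun r : ℕ => m - r * d) := by
      intro a b hab
      simp only [sub_right_inj, mul_eq_mul_right_iff, Nat.cast_inj] at hab
      tauto
    exact Set.infinite_range_of_injective hinj
      ((g.finite_supp x).subset (by rintro _ ⟨r, rfl⟩; exact hcon r))
  have hinj : Function.Injective (LinearMap.id - ψ : M →ₗ[A] M) := by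
    rw [injective_iff_map_eq_zero]
    intro x hx
    have hx' : ψ x = x := by
      have : x - ψ x = 0 := hx
      exact (sub_eq_zero.mp this).symm
    have hpow : ∀ n : ℕ, (ψ ^ n) x = x := by
      intro n
      induction n with
      | zero => simp
      | succ n ih => rw [pow_succ, Module.End.mul_apply, hx', ih]
    apply g.ext_p
    intro i
    rw [map_zero]
    obtain ⟨r, hr⟩ := far' x i
    have := h.pow_apply g r (i - r * d) x
    rw [hpow, hr, map_zero, sub_add_cancel] at this
    exact this
  have hsurj := IsArtinian.surjective_of_injective_endomorphism _ hinj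
  -- every homogeneous element is killed by a power
  have hhom : ∀ (i : ℤ) (w : M), g.p i w = w → ∃ n : ℕ, (ψ ^ n) w = 0 := by
    intro i w hw
    obtain ⟨x, hx⟩ := hsurj w
    have hx' : x = w + ψ x := by
      have : x - ψ x = w := hx
      rw [← this]; abel
    have step : ∀ m, m ≠ i → g.p m x = ψ (g.p (m - d) x) := by
      intro m hm
      conv_lhs => rw [hx']
      rw [map_add, ← hw, g.p_ne m i w hm, zero_add, ← h, sub_add_cancel]
    have low : ∀ r : ℕ, ∀ k : ℕ, g.p (i - (k + 1 : ℕ) * d) x =
        (ψ ^ r) (g.p (i - (k + 1 + r : ℕ) * d) x) := by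
      intro r
      induction r with
      | zero => intro k; simp
      | succ r ih =>
        intro k
        have hne : i - (k + 1 : ℕ) * d ≠ i := by
          intro hc
          have : ((k + 1 : ℕ) : ℤ) * d = 0 := by linarith
          rcases mul_eq_zero.mp this with h1 | h1
          · push_cast at h1; omega
          · exact hd h1
        rw [step _ hne]
        have h1 : i - (k + 1 : ℕ) * d - d = i - ((k + 1) + 1 : ℕ) * d := by push_cast; ring
        rw [h1, ih (k + 1), pow_succ', Module.End.mul_apply]
        congr 4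
        push_cast; ring
    have low0 : g.p (i - d) x = 0 := by
      obtain ⟨r, hr⟩ := far' x (i - d)
      have := low r 0
      have e1 : i - ((0 + 1 : ℕ) : ℤ) * d = i - d := by push_cast; ring
      have e2 : i - ((0 + 1 + r : ℕ) : ℤ) * d = i - d - r * d := by push_cast; ring
      rw [e1, e2, hr, map_zero] at this
      exact this
    have hi : g.p i x = w := by
      conv_lhs => rw [hx']
      have : g.p i (ψ x) = ψ (g.p (i - d) x) := by rw [← h, sub_add_cancel]
      rw [map_add, hw, this, low0, map_zero, add_zero]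
    have high : ∀ r : ℕ, g.p (i + r * d) x = (ψ ^ r) w := by
      intro r
      induction r with
      | zero => simpa using hi
      | succ r ih =>
        have hne : i + (r + 1 : ℕ) * d ≠ i := by
          intro hc
          have : ((r + 1 : ℕ) : ℤ) * d = 0 := by linarith
          rcases mul_eq_zero.mp this with h1 | h1
          · push_cast at h1; omega
          · exact hd h1
        rw [step _ hne]
        have e : i + ((r + 1 : ℕ) : ℤ) * d - d = i + r * d := by push_cast; ring
        rw [e, ih, pow_succ', Module.End.mul_apply]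
    obtain ⟨r, hr⟩ := far x i
    exact ⟨r, by rw [← high r, hr]⟩
  have hall : ∀ x : M, ∃ n : ℕ, (ψ ^ n) x = 0 := by
    intro x
    obtain ⟨s, hs⟩ := g.fin x
    have : ∀ i ∈ s, ∃ n : ℕ, (ψ ^ n) (g.p i x) = 0 := fun i _ => hhom i _ (g.p_self i x)
    choose! n hn using this
    refine ⟨∑ i ∈ s, n i, ?_⟩
    rw [hs, map_sum]
    refine Finset.sum_eq_zero ?_
    intro i hi
    have hle : n i ≤ ∑ i ∈ s, n i := Finset.single_le_sum (fun _ _ => Nat.zero_le _) hi
    obtain ⟨c, hc⟩ := Nat.exists_eq_add_of_le hle
    rw [hc, add_comm, pow_add, Module.End.mul_apply, hn i hi, map_zero]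
  obtain ⟨S, hS⟩ := (Module.finite_def.mp (inferInstance : Module.Finite A M))
  choose n hn using hall
  refine ⟨∑ x ∈ S, n x, ?_⟩
  have hle : Submodule.span A (S : Set M) ≤ LinearMap.ker (ψ ^ (∑ x ∈ S, n x)) := by
    rw [Submodule.span_le]
    intro x hx
    have hle : n x ≤ ∑ i ∈ S, n i := Finset.single_le_sum (fun _ _ => Nat.zero_le _) hx
    obtain ⟨c, hc⟩ := Nat.exists_eq_add_of_le hle
    change (ψ ^ (∑ x ∈ S, n x)) x = 0
    rw [hc, add_comm, pow_add, Module.End.mul_apply, hn x, map_zero]
  rw [hS, top_le_iff, LinearMap.ker_eq_top] at hle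
  exact hle

end nilp

end Pool.Agent.Lib.MP_c3b2eb_al
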