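import Mathlib
import Pool.Agent.Lib.MP_c3b2eb_al.Part1

set_option autoImplicit false

universe u v w

namespace Pool.Agent.Lib.MP_c3b2eb_al

variable {A : Type u} [Ring A] {𝒜 : ℤ → AddSubgroup A}

/-- The grading of the ring itself, as a left module. -/
def ringGrading [GradedRing 𝒜] : Grading 𝒜 A where
  p i := GradedRing.proj 𝒜 i
  p_self i m := by simp [GradedRing.proj_apply]
  p_ne i j m h := by
    rw [GradedRing.proj_apply, GradedRing.proj_apply,
      DirectSum.decompose_of_mem_ne 𝒜 (SetLike.coe_mem _) (Ne.symm h)]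
  p_smul i j a m ha := by
    rw [GradedRing.proj_apply, GradedRing.proj_apply, smul_eq_mul, smul_eq_mul,
      DirectSum.coe_decompose_mul_add_of_left_mem 𝒜 ha]
  fin m := by
    classical
    exact ⟨(DirectSum.decompose 𝒜 m).support, (DirectSum.sum_support_decompose 𝒜 m).symm⟩

namespace Grading

variable {M : Type v} [AddCommGroup M] [Module A M] (g : Grading 𝒜 M)

lemma p_smul_homog [GradedRing 𝒜] (b : A) {k : ℤ} {m : M} (hm : g.p k m = m) (i : ℤ) :
    g.p i (b • m) = (GradedRing.proj 𝒜 (i - k) b) • m := by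
  classical
  refine DirectSum.Decomposition.inductionOn 𝒜 ?_ ?_ ?_ b
  · simp
  · intro l a
    rw [g.p_smul' l i a m a.2]
    by_cases h : l = i - k
    · subst h
      rw [sub_sub_cancel, hm, GradedRing.proj_apply, DirectSum.decompose_of_mem_same 𝒜 a.2]
    · rw [← hm, g.p_ne, smul_zero, GradedRing.proj_apply,
        DirectSum.decompose_of_mem_ne 𝒜 a.2 h, zero_smul]
      intro hc
      apply h
      omega
  · intro a a' h h'
    rw [add_smul, map_add, h, h', map_add, add_smul]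

lemma homog_span_singleton [GradedRing 𝒜] {k : ℤ} {m : M} (hm : g.p k m = m) :
    g.Homog (Submodule.span A {m}) := by
  intro i x hx
  obtain ⟨b, rfl⟩ := Submodule.mem_span_singleton.mp hx
  rw [g.p_smul_homog b hm]
  exact Submodule.smul_mem _ _ (Submodule.mem_span_singleton_self m)

lemma homog_map_span [GradedRing 𝒜] {k : ℤ} {m : M} (hm : g.p k m = m) {I : Submodule A A}
    (hI : (ringGrading (𝒜 := 𝒜)).Homog I) :
    g.Homog (Submodule.map (LinearMap.toSpanSingleton A M m) I) := by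
  rintro i _ ⟨b, hb, rfl⟩
  rw [LinearMap.toSpanSingleton_apply, g.p_smul_homog b hm]
  exact ⟨_, hI (i - k) b hb, rfl⟩

/-- Every finitely generated graded module over a graded artinian ring has bounded support. -/
theorem bounded [GradedRing 𝒜] [IsArtinianRing A] [Module.Finite A M] :
    ∃ B : ℕ, ∀ i : ℤ, (B : ℤ) < |i| → ∀ m, g.p i m = 0 := by
  classical
  suffices h : (g.supp ⊤).Finite by
    obtain ⟨B, hB⟩ : ∃ B : ℕ, ∀ i ∈ g.supp ⊤, |i| ≤ (B : ℤ) := by
      refine ⟨h.toFinset.sup (fun i => i.natAbs), fun i hi => ?_⟩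
      have h1 : i.natAbs ≤ h.toFinset.sup (fun i => i.natAbs) :=
        Finset.le_sup (f := fun i : ℤ => i.natAbs) (h.mem_toFinset.mpr hi)
      rw [Int.abs_eq_natAbs]
      exact_mod_cast h1
    refine ⟨B, fun i hi m => ?_⟩
    by_contra hne
    exact absurd (hB i ⟨m, trivial, hne⟩) (not_le.mpr hi)
  by_contra hinf
  obtain ⟨L, ⟨hLh, hLinf⟩, hLmin⟩ := IsArtinian.set_has_minimal
    {W : Submodule A M | g.Homog W ∧ (g.supp W).Infinite}
    ⟨⊤, fun _ _ _ => trivial, hinf⟩
  have hfin : ∀ W, g.Homog W → W < L → (g.supp W).Finite := by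
    intro W hW hlt
    by_contra hc
    exact hLmin W ⟨hW, hc⟩ hlt
  obtain ⟨S, hS⟩ : ∃ S : Set (Submodule A M), S = {W | g.Homog W ∧ W < L} := ⟨_, rfl⟩
  obtain ⟨L', hL'⟩ : ∃ L', L' = sSup S := ⟨_, rfl⟩
  have hL'fin : (g.supp L').Finite := by
    obtain ⟨F, hF, hFs⟩ := (CompleteLattice.WellFoundedGT.isSupFiniteCompact (Submodule A M)) S
    rw [hL', hFs, Finset.sup_id_eq_sSup]
    apply g.supp_sSup_finset
    intro W hW
    have := hF hW
    rw [hS] at this
    exact hfin W this.1 this.2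
  have hleL' : ∀ W, g.Homog W → W < L → W ≤ L' := by
    intro W hW hlt
    rw [hL']
    apply le_sSup
    rw [hS]
    exact ⟨hW, hlt⟩
  obtain ⟨D, hD⟩ : ∃ D : Set ℤ, D = g.supp L \ g.supp L' := ⟨_, rfl⟩
  have hDinf : D.Infinite := by rw [hD]; exact hLinf.sdiff hL'fin
  have hx : ∀ i ∈ D, ∃ x ∈ L, g.p i x = x ∧ x ≠ 0 := by
    intro i hi
    rw [hD] at hi
    obtain ⟨x, hx, hi0⟩ := hi.1
    exact ⟨g.p i x, hLh i x hx, g.p_self i x, hi0⟩
  choose! x hxL hxh hx0 using hx
  have hgen : ∀ i ∈ D, ∀ y ∈ L, g.p i y = y → y ≠ 0 → Submodule.span A {y} = L := by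
    intro i hi y hy hyh hy0
    by_contra hne
    have hlt : Submodule.span A {y} < L :=
      lt_of_le_of_ne (by rw [Submodule.span_le]; simpa using hy) hne
    have : y ∈ L' := hleL' _ (g.homog_span_singleton hyh) hlt (Submodule.mem_span_singleton_self y)
    rw [hD] at hi
    exact hi.2 ⟨y, this, by rwa [hyh]⟩
  -- annihilators
  obtain ⟨I, hI⟩ : ∃ I : Finset ℤ → Submodule A A, ∀ Y b, b ∈ I Y ↔ ∀ k ∈ Y, b • x k = 0 := by
    refine ⟨fun Y => ⨅ k ∈ Y, LinearMap.ker (LinearMap.toSpanSingleton A M (x k)), ?_⟩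
    intro Y b
    simp [Submodule.mem_iInf]
  have hIh : ∀ Y : Finset ℤ, (Y : Set ℤ) ⊆ D → (ringGrading (𝒜 := 𝒜)).Homog (I Y) := by
    intro Y hY i b hb
    rw [hI] at hb ⊢
    intro k hk
    have := g.p_smul_homog b (hxh k (hY hk)) (i + k)
    rw [add_sub_cancel_right, hb k hk, map_zero] at this
    exact this.symm
  obtain ⟨_, ⟨Y, hYD, rfl, hYinf⟩, hYmin⟩ := IsArtinian.set_has_minimal
    {J : Submodule A A | ∃ Y : Finset ℤ, (Y : Set ℤ) ⊆ D ∧ J = I Y ∧
      {j | j ∈ D ∧ ∃ b ∈ J, b • x j ≠ 0}.Infinite} (by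
    refine ⟨I ∅, ∅, by simp, rfl, ?_⟩
    refine hDinf.mono ?_
    intro j hj
    refine ⟨hj, 1, ?_, ?_⟩
    · rw [hI]; simp
    · rw [one_smul]; exact hx0 j hj)
  obtain ⟨k, hkD, b0, hb0, hb0k⟩ := hYinf.nonempty
  have hinsD : ((insert k Y : Finset ℤ) : Set ℤ) ⊆ D := by
    rw [Finset.coe_insert]; exact Set.insert_subset hkD hYD
  have hlt : I (insert k Y) < I Y := by
    refine lt_of_le_of_ne ?_ ?_
    · intro b hb
      rw [hI] at hb ⊢
      exact fun l hl => hb l (Finset.mem_insert_of_mem hl)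
    · intro heq
      rw [← heq, hI] at hb0
      exact hb0k (hb0 k (Finset.mem_insert_self k Y))
  have hFfin : {j | j ∈ D ∧ ∃ b ∈ I (insert k Y), b • x j ≠ 0}.Finite := by
    by_contra hc
    exact hYmin _ ⟨insert k Y, hinsD, rfl, hc⟩ hlt
  obtain ⟨J, hJ⟩ : ∃ J : Set ℤ, J = ({j | j ∈ D ∧ ∃ b ∈ I Y, b • x j ≠ 0} \
    {j | j ∈ D ∧ ∃ b ∈ I (insert k Y), b • x j ≠ 0}) \ {k} := ⟨_, rfl⟩
  have hJinf : J.Infinite := by
    rw [hJ]; exact (hYinf.sdiff hFfin).sdiff (Set.finite_singleton k)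
  have hker : ∀ j ∈ J, ∀ b ∈ I Y, b • x k = 0 → b • x j = 0 := by
    intro j hj b hb hbk
    rw [hJ] at hj
    by_contra hne
    apply hj.1.2
    refine ⟨hj.1.1.1, b, ?_, hne⟩
    rw [hI] at hb ⊢
    intro l hl
    rcases Finset.mem_insert.mp hl with rfl | hl
    · exact hbk
    · exact hb l hl
  obtain ⟨W, hWdef⟩ : ∃ W, W = Submodule.map (LinearMap.toSpanSingleton A M (x k)) (I Y) := ⟨_, rfl⟩
  have hmemL : ∀ j ∈ D, ∀ b : A, b • x j ∈ L := fun j hj b => L.smul_mem _ (hxL j hj)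
  have hWL : W ≤ L := by
    rw [hWdef]
    rintro _ ⟨b, _, rfl⟩
    exact hmemL k hkD b
  by_cases hW : W = L
  · obtain ⟨j, hj⟩ := hJinf.nonempty
    have hjD : j ∈ D := by rw [hJ] at hj; exact hj.1.1.1
    have hjk : j ≠ k := by rw [hJ] at hj; exact hj.2
    let β : I Y →ₗ[A] L := LinearMap.codRestrict L
      ((LinearMap.toSpanSingleton A M (x k)).comp (I Y).subtype) (fun b => hmemL k hkD b)
    let γ : I Y →ₗ[A] L := LinearMap.codRestrict L
      ((LinearMap.toSpanSingleton A M (x j)).comp (I Y).subtype) (fun b => hmemL j hjD b)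
    have hβ : ∀ b : I Y, ((β b : L) : M) = (b : A) • x k := fun b => rfl
    have hγ : ∀ b : I Y, ((γ b : L) : M) = (b : A) • x j := fun b => rfl
    have hβs : Function.Surjective β := by
      rintro ⟨y, hy⟩
      rw [← hW, hWdef] at hy
      obtain ⟨b, hb, rfl⟩ := hy
      exact ⟨⟨b, hb⟩, rfl⟩
    have hkk : LinearMap.ker β ≤ LinearMap.ker γ := by
      intro b hb
      have h1 : (b : A) • x k = 0 := by
        have : β b = 0 := hb
        rw [← hβ, this]; rfl
      have h2 := hker j hj b b.2 h1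
      change γ b = 0
      ext
      rw [hγ, h2]; rfl
    obtain ⟨ψ, hψ⟩ : ∃ ψ : L →ₗ[A] L, ∀ b, ψ (β b) = γ b := by
      refine ⟨(Submodule.liftQ (LinearMap.ker β) γ hkk).comp
        (LinearMap.quotKerEquivOfSurjective β hβs).symm.toLinearMap, ?_⟩
      intro b
      have : (LinearMap.quotKerEquivOfSurjective β hβs).symm (β b) =
          Submodule.Quotient.mk b := by
        rw [LinearEquiv.symm_apply_eq]
        rfl
      rw [LinearMap.comp_apply, LinearEquiv.coe_toLinearMap, this, Submodule.liftQ_apply]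
    have hdeg : HomDeg (g.restrict hLh) (g.restrict hLh) (j - k) ψ := by
      intro i y
      obtain ⟨b, rfl⟩ := hβs y
      have h1 : (g.restrict hLh).p i (β b) =
          β ⟨GradedRing.proj 𝒜 (i - k) (b : A), hIh Y hYD (i - k) b b.2⟩ := by
        ext
        rw [g.restrict_p, hβ, hβ, g.p_smul_homog _ (hxh k hkD)]
      rw [h1, hψ, hψ]
      ext
      rw [g.restrict_p, hγ, hγ, g.p_smul_homog _ (hxh j hjD)]
      have e : i + (j - k) - j = i - k := by ring
      rw [e]
    obtain ⟨n, hn⟩ := nilpotent_of_deg_ne_zero (g.restrict hLh) (sub_ne_zero.mpr hjk) hdeg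
    -- the image of x k
    have hjbad : ¬ (ψ ⟨x k, hxL k hkD⟩ = 0) := by
      intro h0
      rw [hJ] at hj
      obtain ⟨b, hb, hbj⟩ := hj.1.1.2
      apply hbj
      have : γ ⟨b, hb⟩ = b • ψ ⟨x k, hxL k hkD⟩ := by
        rw [← hψ, ← map_smul]
        rfl
      rw [h0, smul_zero] at this
      rw [← hγ ⟨b, hb⟩, this]; rfl
    have hjhom : g.p j ((ψ ⟨x k, hxL k hkD⟩ : L) : M) = (ψ ⟨x k, hxL k hkD⟩ : L) := by
      have h1 := hdeg k ⟨x k, hxL k hkD⟩
      rw [add_sub_cancel] at h1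
      have h2 : (g.restrict hLh).p k ⟨x k, hxL k hkD⟩ = ⟨x k, hxL k hkD⟩ := by
        ext; exact hxh k hkD
      rw [h2] at h1
      have := congrArg (Subtype.val) h1
      rwa [g.restrict_p] at this
    have hspan := hgen j hjD _ (ψ ⟨x k, hxL k hkD⟩).2 hjhom
      (fun h => hjbad (by ext; exact h))
    have hsurj : Function.Surjective ψ := by
      rintro ⟨y, hy⟩
      have hy' := hy
      rw [← hspan] at hy'
      obtain ⟨b, hb⟩ := Submodule.mem_span_singleton.mp hy'
      refine ⟨b • ⟨x k, hxL k hkD⟩, ?_⟩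
      rw [map_smul]
      ext
      exact hb
    have hsurjn : Function.Surjective (ψ ^ n : Module.End A L) := by
      rw [Module.End.coe_pow]
      exact hsurj.iterate n
    rw [hn] at hsurjn
    obtain ⟨z, hz⟩ := hsurjn ⟨x k, hxL k hkD⟩
    apply hx0 k hkD
    have := congrArg Subtype.val hz
    simpa using this.symm
  · have hWlt : W < L := lt_of_le_of_ne hWL hW
    have hWh : g.Homog W := by rw [hWdef]; exact g.homog_map_span (hxh k hkD) (hIh Y hYD)
    have hWfin := hfin W hWh hWlt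
    have key : ∀ j ∈ J, ∀ b ∈ I Y, ∀ i, g.p i (b • x j) ≠ 0 → (i - j + k) ∈ g.supp W := by
      intro j hj b hb i hi
      have hjD : j ∈ D := by rw [hJ] at hj; exact hj.1.1.1
      rw [g.p_smul_homog b (hxh j hjD)] at hi
      have hb' := hIh Y hYD (i - j) b hb
      have hne : (GradedRing.proj 𝒜 (i - j) b) • x k ≠ 0 := fun h => hi (hker j hj _ hb' h)
      refine ⟨(GradedRing.proj 𝒜 (i - j) b) • x k, ?_, ?_⟩
      · rw [hWdef]; exact ⟨_, hb', rfl⟩
      · rw [g.p_smul_homog _ (hxh k hkD), add_sub_cancel_right]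
        have := (ringGrading (𝒜 := 𝒜)).p_self (i - j) b
        change GradedRing.proj 𝒜 (i - j) (GradedRing.proj 𝒜 (i - j) b) = _ at this
        rw [this]
        exact hne
    have key2 : ∀ j ∈ J, ∃ i ∈ g.supp L', ∃ i' ∈ g.supp W, j = i - i' + k := by
      intro j hj
      have hjD : j ∈ D := by rw [hJ] at hj; exact hj.1.1.1
      obtain ⟨b, hb, hbj⟩ : ∃ b ∈ I Y, b • x j ≠ 0 := by rw [hJ] at hj; exact hj.1.1.2
      obtain ⟨i, hi⟩ : ∃ i, g.p i (b • x j) ≠ 0 := by
        by_contra hc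
        push Not at hc
        exact hbj (g.ext_p (fun i => by rw [hc i, map_zero]))
      refine ⟨i, ?_, i - j + k, key j hj b hb i hi, by ring⟩
      have hWjh : g.Homog (Submodule.map (LinearMap.toSpanSingleton A M (x j)) (I Y)) :=
        g.homog_map_span (hxh j hjD) (hIh Y hYD)
      have hWjfin : (g.supp (Submodule.map (LinearMap.toSpanSingleton A M (x j)) (I Y))).Finite := by
        refine (hWfin.image (fun i' => i' + j - k)).subset ?_
        rintro l ⟨_, ⟨c, hc, rfl⟩, hl⟩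
        exact ⟨l - j + k, key j hj c hc l hl, by ring⟩
      have hWjlt : Submodule.map (LinearMap.toSpanSingleton A M (x j)) (I Y) < L := by
        refine lt_of_le_of_ne ?_ ?_
        · rintro _ ⟨c, _, rfl⟩
          exact hmemL j hjD c
        · intro heq
          rw [heq] at hWjfin
          exact hLinf hWjfin
      exact ⟨b • x j, hleL' _ hWjh hWjlt ⟨b, hb, rfl⟩, hi⟩
    apply hJinf
    refine ((hL'fin.prod hWfin).image (fun q : ℤ × ℤ => q.1 - q.2 + k)).subset ?_
    intro j hj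
    obtain ⟨i, hi, i', hi', rfl⟩ := key2 j hj
    exact ⟨(i, i'), ⟨hi, hi'⟩, rfl⟩

end Grading

end Pool.Agent.Lib.MP_c3b2eb_al
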