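import Mathlib

set_option autoImplicit false

universe u v w

namespace Pool.Agent.Lib.MP_c3b2eb_al

section semigroup

variable {A : Type u} [Ring A] {M : Type v} [AddCommGroup M] [Module A M]

/-- The span of all images of `W` under the members of `S`. -/
def img (S : Set (Module.End A M)) (W : Submodule A M) : Submodule A M :=
  ⨆ s : S, W.map (s : Module.End A M)

lemma map_le_img {S : Set (Module.End A M)} {s : Module.End A M} (hs : s ∈ S)
    (W : Submodule A M) : W.map s ≤ img S W :=
  le_iSup (fun s : S => W.map (s : Module.End A M)) ⟨s, hs⟩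

lemma img_le {S : Set (Module.End A M)} {W V : Submodule A M} (h : ∀ s ∈ S, W.map s ≤ V) :
    img S W ≤ V := iSup_le (fun s => h s.1 s.2)

lemma map_mul' (s t : Module.End A M) (W : Submodule A M) :
    W.map (s * t) = (W.map t).map s := by
  rw [Module.End.mul_eq_comp, Submodule.map_comp]

theorem img_sup_ne [IsArtinian A M] [IsNoetherian A M] {S : Set (Module.End A M)}
    (hmul : ∀ s ∈ S, ∀ t ∈ S, s * t ∈ S) (hnil : ∀ s ∈ S, ∃ n : ℕ, s ^ n = 0)
    {W : Submodule A M} (hW : ∀ s ∈ S, W.map s ≤ W) (V : Submodule A M) :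
    (∀ s ∈ S, V.map s ≤ V) → V < W → img S W ⊔ V ≠ W := by
  induction V using WellFoundedGT.induction with
  | ind V ih =>
  intro hV hVW heq
  have hex : ∃ s ∈ S, ¬ W.map s ≤ V := by
    by_contra hc
    push Not at hc
    have : img S W ≤ V := img_le hc
    rw [sup_eq_right.mpr this] at heq
    exact hVW.ne heq
  obtain ⟨_, ⟨s, hs, hsW, rfl⟩, hmin⟩ := IsArtinian.set_has_minimal
    {X : Submodule A M | ∃ s ∈ S, ¬ W.map s ≤ V ∧ X = W.map s ⊔ V}
    (by obtain ⟨s, hs, hsW⟩ := hex; exact ⟨_, s, hs, hsW, rfl⟩)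
  -- a general principle
  have key : ∀ u ∈ S, W.map (u * s) ⊔ V ≤ W.map s ⊔ V → W.map (u * s) ≤ V := by
    intro u hu hle
    by_contra hn
    have hXeq : W.map (u * s) ⊔ V = W.map s ⊔ V := by
      by_contra hne
      exact hmin _ ⟨u * s, hmul u hu s hs, hn, rfl⟩ (lt_of_le_of_ne hle hne)
    have hiter : ∀ n : ℕ, (W.map s ⊔ V).map (u ^ n) ⊔ V = W.map s ⊔ V := by
      intro n
      induction n with
      | zero => 
        rw [pow_zero, Module.End.one_eq_id, Submodule.map_id, sup_assoc, sup_idem]
      | succ n ihn =>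
        rw [pow_succ', map_mul']
        have h0 : ∀ Z : Submodule A M, Z.map u ⊔ V = (Z ⊔ V).map u ⊔ V := by
          intro Z
          rw [Submodule.map_sup, sup_assoc, sup_eq_right.mpr (hV u hu)]
        rw [h0, ihn, Submodule.map_sup, ← map_mul', sup_assoc, sup_eq_right.mpr (hV u hu), hXeq]
    obtain ⟨n, hn0⟩ := hnil u hu
    have := hiter n
    rw [hn0, Submodule.map_zero, bot_sup_eq] at this
    apply hsW
    rw [this]
    exact le_sup_left
  have hss : W.map (s * s) ≤ V := by
    apply key s hs
    apply sup_le_sup_right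
    rw [map_mul']
    exact Submodule.map_mono (hW s hs)
  have hsts : ∀ t ∈ S, W.map (s * (t * s)) ≤ V := by
    intro t ht
    rw [← mul_assoc]
    apply key (s * t) (hmul s hs t ht)
    apply sup_le_sup_right
    rw [mul_assoc, map_mul']
    refine Submodule.map_mono ?_
    rw [map_mul']
    exact (Submodule.map_mono (hW s hs)).trans (hW t ht)
  obtain ⟨V', hV'⟩ : ∃ V', V' = V ⊔ (W.map s ⊔ img S (W.map s)) := ⟨_, rfl⟩
  have hVV' : V < V' := by
    refine lt_of_le_of_ne (by rw [hV']; exact le_sup_left) ?_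
    intro h
    apply hsW
    rw [h, hV']
    exact le_sup_left.trans le_sup_right
  have hV'inv : ∀ t ∈ S, V'.map t ≤ V' := by
    intro t ht
    have h1 : (V').map t = V.map t ⊔ ((W.map s).map t ⊔ (img S (W.map s)).map t) := by
      rw [hV', Submodule.map_sup, Submodule.map_sup]
    rw [h1, hV']
    refine sup_le ((hV t ht).trans le_sup_left) (le_trans ?_ le_sup_right)
    refine sup_le ((map_le_img ht _).trans le_sup_right) (le_trans ?_ le_sup_right)
    rw [img, Submodule.map_iSup]
    refine iSup_le (fun r => ?_)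
    rw [← map_mul']
    exact map_le_img (hmul t ht r r.2) _
  have hV'le : V' ≤ W := by
    rw [hV']
    refine sup_le hVW.le (sup_le (hW s hs) (img_le (fun t ht => ?_)))
    exact (Submodule.map_mono (hW s hs)).trans (hW t ht)
  have hV'ne : V' ≠ W := by
    intro h
    apply hsW
    rw [← h, hV', Submodule.map_sup, Submodule.map_sup]
    refine sup_le (hV s hs) (sup_le ?_ ?_)
    · rw [← map_mul']; exact hss
    · rw [img, Submodule.map_iSup]
      refine iSup_le (fun r => ?_)
      rw [← map_mul', ← map_mul']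
      have := hsts r r.2
      rwa [← mul_assoc] at this
  refine ih V' hVV' hV'inv (lt_of_le_of_ne hV'le hV'ne) ?_
  apply le_antisymm
  · exact sup_le (img_le hW) hV'le
  · rw [← heq]
    exact sup_le_sup (by rw [heq]) hVV'.le

/-- Fitting: the additive group generated by a multiplicatively closed set of nilpotent
endomorphisms of a module of finite length consists of nilpotent endomorphisms. -/
theorem closure_nilpotent [IsArtinian A M] [IsNoetherian A M] {S : Set (Module.End A M)}
    (hmul : ∀ s ∈ S, ∀ t ∈ S, s * t ∈ S) (hnil : ∀ s ∈ S, ∃ n : ℕ, s ^ n = 0)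
    {θ : Module.End A M} (hθ : θ ∈ AddSubgroup.closure S) : ∃ n : ℕ, θ ^ n = 0 := by
  let W : ℕ → Submodule A M := fun n => (img S)^[n] ⊤
  have hWs : ∀ n, W (n + 1) = img S (W n) := fun n => Function.iterate_succ_apply' _ _ _
  have hinv : ∀ n, W (n + 1) ≤ W n := by
    intro n
    induction n with
    | zero => exact le_top
    | succ n ih =>
      rw [hWs (n + 1)]
      refine img_le (fun s hs => ?_)
      conv_rhs => rw [hWs n]
      exact (Submodule.map_mono ih).trans (map_le_img hs _)
  have hanti : Antitone W := antitone_nat_of_succ_le hinv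
  obtain ⟨n, hn⟩ := IsArtinian.monotone_stabilizes (⟨fun n => OrderDual.toDual (W n), hanti⟩ : ℕ →o (Submodule A M)ᵒᵈ)
  have hn1 : W n = W (n + 1) := hn (n + 1) (Nat.le_succ n)
  have hbot : W n = ⊥ := by
    by_contra hne
    refine img_sup_ne hmul hnil (W := W n) ?_ ⊥ ?_ (bot_lt_iff_ne_bot.mpr hne) ?_
    · intro s hs
      conv_rhs => rw [hn1, hWs]
      exact map_le_img hs _
    · intro s hs
      rw [Submodule.map_bot]
    · rw [sup_bot_eq, ← hWs, ← hn1]
  refine ⟨n, ?_⟩
  have hstep : ∀ k, (W k).map θ ≤ W (k + 1) := by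
    intro k
    rw [hWs]
    induction hθ using AddSubgroup.closure_induction with
    | mem s hs => exact map_le_img hs _
    | zero => rw [Submodule.map_zero]; exact bot_le
    | add a b _ _ ha hb =>
      rintro _ ⟨x, hx, rfl⟩
      exact add_mem (ha ⟨x, hx, rfl⟩) (hb ⟨x, hx, rfl⟩)
    | neg a _ ha =>
      rintro _ ⟨x, hx, rfl⟩
      exact neg_mem (ha ⟨x, hx, rfl⟩)
  have hpow : ∀ k, (⊤ : Submodule A M).map (θ ^ k) ≤ W k := by
    intro k
    induction k with
    | zero => exact le_top
    | succ k ih =>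
      rw [pow_succ', map_mul']
      exact (Submodule.map_mono ih).trans (hstep k)
  ext x
  have := hpow n ⟨x, trivial, rfl⟩
  rw [hbot] at this
  simpa using this

end semigroup

end Pool.Agent.Lib.MP_c3b2eb_al
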