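import Mathlib
import Pool.Agent.Lib.MP_c3b2eb_al.Part2
import Pool.Agent.Lib.MP_c3b2eb_al.Part3

set_option autoImplicit false

universe u v w x

namespace Pool.Agent.Lib.MP_c3b2eb_al

variable {A : Type u} [Ring A] {𝒜 : ℤ → AddSubgroup A}

section linear

/-- An additive map commuting with homogeneous scalars is linear. -/
lemma smul_of_homog [GradedRing 𝒜] {M : Type v} [AddCommGroup M] [Module A M]
    {M' : Type w} [AddCommGroup M'] [Module A M'] (f : M →+ M')
    (h : ∀ i, ∀ a ∈ 𝒜 i, ∀ m, f (a • m) = a • f m) (a : A) (m : M) : f (a • m) = a • f m := by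
  classical
  refine DirectSum.Decomposition.inductionOn 𝒜 ?_ ?_ ?_ a
  · simp
  · intro i b
    exact h i b b.2 m
  · intro b c hb hc
    rw [add_smul, map_add, hb, hc, add_smul]

/-- Build a linear map from an additive map commuting with homogeneous scalars. -/
def mkLin [GradedRing 𝒜] {M : Type v} [AddCommGroup M] [Module A M]
    {M' : Type w} [AddCommGroup M'] [Module A M'] (f : M →+ M')
    (h : ∀ i, ∀ a ∈ 𝒜 i, ∀ m, f (a • m) = a • f m) : M →ₗ[A] M' :=
  { f with map_smul' := fun a m => smul_of_homog f h a m }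

@[simp] lemma mkLin_apply [GradedRing 𝒜] {M : Type v} [AddCommGroup M] [Module A M]
    {M' : Type w} [AddCommGroup M'] [Module A M'] (f : M →+ M')
    (h : ∀ i, ∀ a ∈ 𝒜 i, ∀ m, f (a • m) = a • f m) (m : M) : mkLin f h m = f m := rfl

end linear

section comp

variable {M : Type v} [AddCommGroup M] [Module A M] (g : Grading 𝒜 M)
variable {M' : Type w} [AddCommGroup M'] [Module A M'] (g' : Grading 𝒜 M')

lemma comp_supp (d : ℤ) (θ : M →ₗ[A] M') (m : M) :
    (Function.support (fun i => g'.p (i + d) (θ (g.p i m)))).Finite := by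
  refine (g.finite_supp m).subset ?_
  intro i hi h0
  apply hi
  change g'.p (i + d) (θ (g.p i m)) = 0
  rw [h0, map_zero, map_zero]

/-- The degree `d` component of a linear map. -/
noncomputable def comp [GradedRing 𝒜] (d : ℤ) (θ : M →ₗ[A] M') : M →ₗ[A] M' :=
  mkLin (𝒜 := 𝒜)
    { toFun := fun m => ∑ᶠ i, g'.p (i + d) (θ (g.p i m))
      map_zero' := by simp
      map_add' := by
        intro m m'
        rw [← finsum_add_distrib (comp_supp g g' d θ m) (comp_supp g g' d θ m')]
        refine finsum_congr (fun i => ?_)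
        rw [map_add, map_add, map_add] } (by
    intro l a ha m
    change ∑ᶠ i, g'.p (i + d) (θ (g.p i (a • m))) = a • ∑ᶠ i, g'.p (i + d) (θ (g.p i m))
    rw [smul_finsum' a (comp_supp g g' d θ m)]
    rw [← finsum_comp_equiv (Equiv.addRight l)]
    refine finsum_congr (fun i => ?_)
    rw [Equiv.coe_addRight, g.p_smul' l (i + l) a m ha, map_smul,
      g'.p_smul' l _ a _ ha]
    have e1 : i + l - l = i := by ring
    have e2 : i + l + d - l = i + d := by ring
    rw [e1, e2])

lemma comp_apply [GradedRing 𝒜] (d : ℤ) (θ : M →ₗ[A] M') (m : M) :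
    comp g g' d θ m = ∑ᶠ i, g'.p (i + d) (θ (g.p i m)) := rfl

lemma comp_apply_finset [GradedRing 𝒜] (d : ℤ) (θ : M →ₗ[A] M') (m : M) (s : Finset ℤ)
    (hs : ∀ i, i ∉ s → g.p i m = 0) :
    comp g g' d θ m = ∑ i ∈ s, g'.p (i + d) (θ (g.p i m)) := by
  rw [comp_apply]
  apply finsum_eq_sum_of_support_subset
  intro i hi
  by_contra hn
  apply hi
  change g'.p (i + d) (θ (g.p i m)) = 0
  rw [hs i hn, map_zero, map_zero]

lemma comp_homDeg [GradedRing 𝒜] (d : ℤ) (θ : M →ₗ[A] M') : HomDeg g g' d (comp g g' d θ) := by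
  intro i x
  have h1 : comp g g' d θ (g.p i x) = g'.p (i + d) (θ (g.p i x)) := by
    rw [comp_apply_finset g g' d θ (g.p i x) {i}]
    · rw [Finset.sum_singleton, g.p_self]
    · intro j hj
      exact g.p_ne j i x (by simpa using hj)
  have h2 : g'.p (i + d) (comp g g' d θ x) = g'.p (i + d) (θ (g.p i x)) := by
    obtain ⟨s, hs⟩ : ∃ s : Finset ℤ, ∀ i, i ∉ s → g.p i x = 0 := by
      refine ⟨(g.finite_supp x).toFinset, fun i hi => ?_⟩
      by_contra hc
      exact hi ((g.finite_supp x).mem_toFinset.mpr hc)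
    rw [comp_apply_finset g g' d θ x (insert i s)
      (fun j hj => hs j (fun h => hj (Finset.mem_insert_of_mem h))), map_sum]
    rw [Finset.sum_eq_single i]
    · exact g'.p_self _ _
    · intro j _ hj
      exact g'.p_ne _ _ _ (fun h => hj (by linarith))
    · intro h
      exact absurd (Finset.mem_insert_self i s) h
  rw [h1, h2]

lemma comp_comp [GradedRing 𝒜] {M'' : Type x} [AddCommGroup M''] [Module A M'']
    (g'' : Grading 𝒜 M'') (d : ℤ) (θ : M →ₗ[A] M') (φ : M'' →ₗ[A] M) (hφ : HomDeg g'' g 0 φ) :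
    comp g'' g' d (θ.comp φ) = (comp g g' d θ).comp φ := by
  ext x
  rw [LinearMap.comp_apply, comp_apply, comp_apply]
  refine finsum_congr (fun i => ?_)
  rw [LinearMap.comp_apply, ← hφ i x, add_zero]

lemma comp_sub [GradedRing 𝒜] (d : ℤ) (θ θ' : M →ₗ[A] M') :
    comp g g' d (θ - θ') = comp g g' d θ - comp g g' d θ' := by
  ext x
  rw [LinearMap.sub_apply, comp_apply, comp_apply, comp_apply,
    ← finsum_sub_distrib (comp_supp g g' d θ x) (comp_supp g g' d θ' x)]
  refine finsum_congr (fun i => ?_)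
  rw [LinearMap.sub_apply, map_sub]

lemma comp_zero_of_homDeg [GradedRing 𝒜] {d : ℤ} {θ : M →ₗ[A] M'} (h : HomDeg g g' d θ) :
    comp g g' d θ = θ := by
  ext x
  obtain ⟨s, hs⟩ : ∃ s : Finset ℤ, ∀ i, i ∉ s → g.p i x = 0 := by
    refine ⟨(g.finite_supp x).toFinset, fun i hi => ?_⟩
    by_contra hc
    exact hi ((g.finite_supp x).mem_toFinset.mpr hc)
  rw [comp_apply_finset g g' d θ x s hs]
  conv_rhs => rw [← g.sum_eq hs, map_sum]
  refine Finset.sum_congr rfl (fun i _ => ?_)
  rw [h, g.p_self]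

/-- A linear map between bounded graded modules is the sum of its components. -/
lemma sum_comp [GradedRing 𝒜] (B : ℕ) (hB : ∀ i : ℤ, (B : ℤ) < |i| → ∀ m, g.p i m = 0)
    (hB' : ∀ i : ℤ, (B : ℤ) < |i| → ∀ m, g'.p i m = 0) (θ : M →ₗ[A] M') :
    ∑ d ∈ Finset.Icc (-(2 * B : ℤ)) (2 * B), comp g g' d θ = θ := by
  ext x
  have hs : ∀ i, i ∉ Finset.Icc (-(B : ℤ)) B → g.p i x = 0 := by
    intro i hi
    apply hB
    rw [Finset.mem_Icc, ← abs_le, not_le] at hi
    exact hi
  rw [LinearMap.sum_apply]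
  rw [Finset.sum_congr rfl (fun d _ => comp_apply_finset g g' d θ x _ hs), Finset.sum_comm]
  conv_rhs => rw [← g.sum_eq hs, map_sum]
  refine Finset.sum_congr rfl (fun i hi => ?_)
  rw [Finset.mem_Icc] at hi
  have : ∑ d ∈ Finset.Icc (-(2 * B : ℤ)) (2 * B), g'.p (i + d) (θ (g.p i x)) =
      ∑ e ∈ (Finset.Icc (-(2 * B : ℤ)) (2 * B)).map (Equiv.addLeft i).toEmbedding,
        g'.p e (θ (g.p i x)) := by
    rw [Finset.sum_map]
    rfl
  rw [this]
  apply g'.sum_eq
  intro e he
  apply hB'
  by_contra hc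
  rw [not_lt, abs_le] at hc
  apply he
  rw [Finset.mem_map]
  refine ⟨e - i, ?_, ?_⟩
  · rw [Finset.mem_Icc]; constructor <;> linarith [hi.1, hi.2, hc.1, hc.2]
  · simp

end comp

section localring

variable {M : Type v} [AddCommGroup M] [Module A M] (g : Grading 𝒜 M)

/-- Indecomposability in the graded sense. -/
def Indec : Prop := Nontrivial M ∧
  ∀ e : M →ₗ[A] M, e.comp e = e → HomDeg g g 0 e → e = 0 ∨ e = LinearMap.id

variable {g}

lemma nilp_or_bij [IsArtinian A M] [IsNoetherian A M] (hg : Indec g) {d : ℤ}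
    {θ : Module.End A M} (h : HomDeg g g d θ) (hb : ¬ Function.Bijective θ) :
    ∃ n : ℕ, θ ^ n = 0 := by
  by_cases hd : d = 0
  · subst hd
    obtain ⟨n, hn, hn1⟩ := ((LinearMap.eventually_isCompl_ker_pow_range_pow θ).and
      (Filter.eventually_ge_atTop 1)).exists
    have hpow : ∀ i x, g.p i ((θ ^ n) x) = (θ ^ n) (g.p i x) := by
      intro i x
      have := h.pow_apply g n i x
      rwa [mul_zero, add_zero] at this
    let e : M →ₗ[A] M := (LinearMap.range (θ ^ n)).subtype.comp
      (Submodule.projectionOnto _ _ hn.symm)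
    have he1 : ∀ x ∈ LinearMap.range (θ ^ n), e x = x := by
      intro x hx
      have := Submodule.projectionOnto_apply_left hn.symm ⟨x, hx⟩
      change ((Submodule.projectionOnto _ _ hn.symm x : LinearMap.range (θ ^ n)) : M) = x
      rw [this]
    have he2 : ∀ x ∈ LinearMap.ker (θ ^ n), e x = 0 := by
      intro x hx
      have : Submodule.projectionOnto _ _ hn.symm x = 0 := by
        rw [Submodule.projectionOnto_apply_eq_zero_iff]
        exact hx
      change ((Submodule.projectionOnto _ _ hn.symm x : LinearMap.range (θ ^ n)) : M) = 0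
      rw [this]; rfl
    have hdec : ∀ x : M, ∃ k ∈ LinearMap.ker (θ ^ n), ∃ r ∈ LinearMap.range (θ ^ n), x = k + r := by
      intro x
      have : x ∈ (LinearMap.ker (θ ^ n)) ⊔ (LinearMap.range (θ ^ n)) := by
        rw [hn.sup_eq_top]; trivial
      obtain ⟨k, hk, r, hr, hkr⟩ := Submodule.mem_sup.mp this
      exact ⟨k, hk, r, hr, hkr.symm⟩
    have hee : e.comp e = e := by
      ext x
      rw [LinearMap.comp_apply]
      apply he1
      exact (Submodule.projectionOnto _ _ hn.symm x).2
    have hedeg : HomDeg g g 0 e := by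
      intro i x
      obtain ⟨k, hk, r, hr, rfl⟩ := hdec x
      have hk' : g.p i k ∈ LinearMap.ker (θ ^ n) := by
        rw [LinearMap.mem_ker, ← hpow, LinearMap.mem_ker.mp hk, map_zero]
      have hr' : g.p i r ∈ LinearMap.range (θ ^ n) := by
        obtain ⟨y, rfl⟩ := hr
        exact ⟨g.p i y, (hpow i y).symm⟩
      rw [map_add e, he2 k hk, he1 r hr, map_add (g.p i), map_add e, he2 _ hk', he1 _ hr',
        zero_add, zero_add, add_zero]
    rcases hg.2 e hee hedeg with h0 | h1
    · refine ⟨n, ?_⟩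
      ext x
      have := he1 ((θ ^ n) x) ⟨x, rfl⟩
      rw [h0] at this
      exact this.symm
    · exfalso
      apply hb
      have hinj : Function.Injective θ := by
        rw [injective_iff_map_eq_zero]
        intro x hx
        have : x ∈ LinearMap.ker (θ ^ n) := by
          obtain ⟨c, rfl⟩ := Nat.exists_eq_add_of_le hn1
          rw [LinearMap.mem_ker, add_comm, pow_add, pow_one, Module.End.mul_apply, hx, map_zero]
        have h2 := he2 x this
        rw [h1] at h2
        exact h2
      exact ⟨hinj, IsArtinian.surjective_of_injective_endomorphism θ hinj⟩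
  · have : Module.Finite A M := inferInstance
    exact nilpotent_of_deg_ne_zero g hd h

/-- The set of homogeneous endomorphisms that are not bijective. -/
def nonbij (g : Grading 𝒜 M) : Set (Module.End A M) :=
  {θ | (∃ d, HomDeg g g d θ) ∧ ¬ Function.Bijective θ}

lemma nonbij_mul [IsNoetherian A M] [IsArtinian A M] :
    ∀ s ∈ nonbij g, ∀ t ∈ nonbij g, s * t ∈ nonbij g := by
  rintro s ⟨⟨d, hd⟩, hs⟩ t ⟨⟨d', hd'⟩, ht⟩
  refine ⟨⟨d' + d, ?_⟩, ?_⟩
  · intro i x
    rw [Module.End.mul_apply, Module.End.mul_apply, ← hd', ← add_assoc, ← hd]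
  · intro hb
    have hinj : Function.Injective t := by
      have := hb.1
      rw [Module.End.mul_eq_comp, LinearMap.coe_comp] at this
      exact this.of_comp
    exact ht ⟨hinj, IsArtinian.surjective_of_injective_endomorphism t hinj⟩

lemma nilpotent_not_bijective [Nontrivial M] {θ : Module.End A M} {n : ℕ} (h : θ ^ n = 0) :
    ¬ Function.Bijective θ := by
  intro hb
  have h1 : Function.Bijective (θ ^ n : Module.End A M) := by
    rw [Module.End.coe_pow]
    exact hb.iterate n
  rw [h] at h1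
  obtain ⟨x, y, hxy⟩ := exists_pair_ne M
  exact hxy (h1.1 rfl)

/-- An endomorphism whose degree zero component is bijective is bijective. -/
theorem bijective_of_comp_zero [GradedRing 𝒜] [IsArtinian A M] [IsNoetherian A M] (hg : Indec g)
    (B : ℕ) (hB : ∀ i : ℤ, (B : ℤ) < |i| → ∀ m, g.p i m = 0)
    {θ : Module.End A M} (h : Function.Bijective (comp g g 0 θ)) : Function.Bijective θ := by
  have := hg.1
  let E := LinearEquiv.ofBijective (comp g g 0 θ) h
  have hE : ∀ x, E x = comp g g 0 θ x := fun x => rfl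
  have hEdeg : ∀ i x, g.p i (E.symm x) = E.symm (g.p i x) := by
    intro i x
    apply E.injective
    rw [LinearEquiv.apply_symm_apply, hE, ← comp_homDeg g g 0 θ i, add_zero, ← hE,
      LinearEquiv.apply_symm_apply]
  have hmem : ∀ d ≠ 0, (E.symm.toLinearMap.comp (comp g g d θ) : Module.End A M) ∈ nonbij g := by
    intro d hd
    have hdeg : HomDeg g g d (E.symm.toLinearMap.comp (comp g g d θ)) := by
      intro i x
      rw [LinearMap.comp_apply, LinearMap.comp_apply, LinearEquiv.coe_toLinearMap, hEdeg,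
        comp_homDeg g g d θ i]
    have : Module.Finite A M := inferInstance
    obtain ⟨n, hn⟩ := nilpotent_of_deg_ne_zero g hd hdeg
    exact ⟨⟨d, hdeg⟩, nilpotent_not_bijective hn⟩
  have hsum : (E.symm.toLinearMap.comp θ : Module.End A M) = 1 +
      ∑ d ∈ (Finset.Icc (-(2 * B : ℤ)) (2 * B)).erase 0, E.symm.toLinearMap.comp (comp g g d θ) := by
    have h0 : (0 : ℤ) ∈ Finset.Icc (-(2 * B : ℤ)) (2 * B) := by
      rw [Finset.mem_Icc]; constructor <;> omega
    conv_lhs => rw [← sum_comp g g B hB hB θ]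
    rw [← Finset.add_sum_erase _ _ h0]
    ext x
    simp only [LinearMap.comp_apply, LinearMap.add_apply, LinearMap.sum_apply, map_add, map_sum,
      LinearEquiv.coe_toLinearMap, Module.End.one_apply]
    rw [← hE, LinearEquiv.symm_apply_apply]
  obtain ⟨n, hn⟩ := closure_nilpotent (S := nonbij g) nonbij_mul
    (fun s hs => by obtain ⟨⟨d, hd⟩, hb⟩ := hs; exact nilp_or_bij hg hd hb)
    (θ := ∑ d ∈ (Finset.Icc (-(2 * B : ℤ)) (2 * B)).erase 0,
      (E.symm.toLinearMap.comp (comp g g d θ) : Module.End A M))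
    (sum_mem (fun d hd => AddSubgroup.subset_closure (hmem d (Finset.ne_of_mem_erase hd))))
  have hunit : IsUnit (E.symm.toLinearMap.comp θ : Module.End A M) := by
    rw [hsum]
    exact IsNilpotent.isUnit_one_add ⟨n, hn⟩
  rw [Module.End.isUnit_iff] at hunit
  have h3 : (θ : M → M) = E ∘ (E.symm.toLinearMap.comp θ : Module.End A M) := by
    ext x
    simp
  rw [h3]
  exact E.bijective.comp hunit

/-- If the degree zero component of `θ` is not bijective then `1 - θ` is bijective. -/
theorem bijective_one_sub [GradedRing 𝒜] [IsArtinian A M] [IsNoetherian A M] (hg : Indec g)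
    (B : ℕ) (hB : ∀ i : ℤ, (B : ℤ) < |i| → ∀ m, g.p i m = 0)
    {θ : Module.End A M} (h : ¬ Function.Bijective (comp g g 0 θ)) :
    Function.Bijective (1 - θ : Module.End A M) := by
  apply bijective_of_comp_zero hg B hB
  have h1 : comp g g 0 (1 - θ : Module.End A M) = (1 : Module.End A M) - comp g g 0 θ := by
    rw [comp_sub]
    congr 1
    apply comp_zero_of_homDeg
    intro i x
    simp
  rw [h1]
  obtain ⟨n, hn⟩ := nilp_or_bij hg (comp_homDeg g g 0 θ) h
  have : IsUnit ((1 : Module.End A M) - comp g g 0 θ) := IsNilpotent.isUnit_one_sub ⟨n, hn⟩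
  rwa [Module.End.isUnit_iff] at this

end localring

end Pool.Agent.Lib.MP_c3b2eb_al
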