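import Mathlib
import Pool.Agent.Lib.MP_c3b2eb_al.Part4

set_option autoImplicit false

universe u v w x

open DirectSum

namespace Pool.Agent.Lib.MP_c3b2eb_al

variable {A : Type u} [Ring A]

section pullup

variable (𝒜 : ℤ → AddSubgroup A) (N : Type v) [AddCommGroup N] [Module A N]

/-- The graded action of `⨁ 𝒜 i` on `⨁ N`. -/
instance gmod [GradedRing 𝒜] : DirectSum.Gmodule (fun i => 𝒜 i) (fun _ : ℤ => N) where
  smul a n := (a : A) • n
  one_smul b := by
    obtain ⟨j, n⟩ := b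
    refine Sigma.ext (zero_add j) ?_
    exact heq_of_eq (one_smul A n)
  mul_smul a b c := by
    obtain ⟨j, n⟩ := c
    refine Sigma.ext (add_assoc _ _ _) ?_
    exact heq_of_eq (mul_smul (a.2 : A) (b.2 : A) n)
  smul_add a b c := smul_add (a : A) b c
  smul_zero a := smul_zero (a : A)
  add_smul a b c := add_smul (a : A) (b : A) c
  zero_smul b := zero_smul A b

/-- The pull-up of an ungraded module. -/
def GN (_𝒜 : ℤ → AddSubgroup A) (N : Type v) [AddCommGroup N] : Type v := ⨁ _ : ℤ, N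

instance : AddCommGroup (GN 𝒜 N) := inferInstanceAs (AddCommGroup (⨁ _ : ℤ, N))

noncomputable instance [GradedRing 𝒜] : Module A (GN 𝒜 N) :=
  Module.compHom (⨁ _ : ℤ, N) (DirectSum.decomposeRingEquiv 𝒜).toRingHom

variable {N}

/-- Homogeneous elements of the pull-up. -/
def GN.of (i : ℤ) : N →+ GN 𝒜 N := DirectSum.of (fun _ : ℤ => N) i

/-- Coefficients. -/
def GN.coeff (i : ℤ) : GN 𝒜 N →+ N := DFinsupp.evalAddMonoidHom (β := fun _ : ℤ => N) i

variable {𝒜}

omit [Module A N] in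
lemma GN.coeff_of (i j : ℤ) (n : N) : GN.coeff 𝒜 i (GN.of 𝒜 j n) = if i = j then n else 0 := by
  change (DirectSum.of (fun _ : ℤ => N) j n) i = _
  rw [DirectSum.of_apply]
  split_ifs with h1 h2 h2
  · subst h1; rfl
  · exact absurd h1.symm h2
  · exact absurd h2.symm h1
  · rfl

omit [Module A N] in
lemma GN.ext' {a b : GN 𝒜 N} (h : ∀ i, GN.coeff 𝒜 i a = GN.coeff 𝒜 i b) : a = b :=
  DFinsupp.ext h

omit [Module A N] in
lemma GN.induction {P : GN 𝒜 N → Prop} (h0 : P 0) (h1 : ∀ i n, P (GN.of 𝒜 i n))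
    (h2 : ∀ a b, P a → P b → P (a + b)) (a : GN 𝒜 N) : P a :=
  DirectSum.induction_on (motive := P) a h0 h1 h2

lemma GN.smul_of [GradedRing 𝒜] {j : ℤ} {a : A} (ha : a ∈ 𝒜 j) (i : ℤ) (n : N) :
    a • GN.of 𝒜 i n = GN.of 𝒜 (j + i) (a • n) := by
  have h := DirectSum.Gmodule.of_smul_of (fun i => 𝒜 i) (fun _ : ℤ => N) (i := j) (j := i) ⟨a, ha⟩ n
  have h2 : DirectSum.of (fun i => 𝒜 i) j ⟨a, ha⟩ = DirectSum.decomposeRingEquiv 𝒜 a := by
    change _ = DirectSum.decompose 𝒜 a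
    rw [DirectSum.decompose_of_mem 𝒜 ha]
  rw [h2] at h
  exact h

/-- The grading of the pull-up. -/
def GN.grading [GradedRing 𝒜] : Grading 𝒜 (GN 𝒜 N) where
  p i := (GN.of 𝒜 i).comp (GN.coeff 𝒜 i)
  p_self i m := by
    simp [GN.coeff_of]
  p_ne i j m h := by
    simp [GN.coeff_of, h]
  p_smul i j a m ha := by
    induction m using GN.induction with
    | h0 => simp
    | h1 k n =>
      rw [GN.smul_of ha]
      simp only [AddMonoidHom.comp_apply, GN.coeff_of, add_right_inj]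
      split_ifs with h
      · rw [GN.smul_of ha]
      · simp
    | h2 a b ha hb => rw [smul_add, map_add, ha, hb, map_add, smul_add]
  fin m := by
    induction m using GN.induction with
    | h0 => exact ⟨∅, by simp⟩
    | h1 k n =>
      refine ⟨{k}, ?_⟩
      simp [GN.coeff_of]
    | h2 a b ha hb =>
      obtain ⟨s, hs⟩ := ha
      obtain ⟨t, ht⟩ := hb
      classical
      have key : ∀ (z : GN 𝒜 N) (s : Finset ℤ), z = ∑ i ∈ s, ((GN.of 𝒜 i).comp (GN.coeff 𝒜 i)) z →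
          ∀ t : Finset ℤ, s ⊆ t → z = ∑ i ∈ t, ((GN.of 𝒜 i).comp (GN.coeff 𝒜 i)) z := by
        intro z s hz t hst
        conv_lhs => rw [hz]
        refine Finset.sum_subset hst (fun i _ hi => ?_)
        rw [hz, map_sum]
        refine Finset.sum_eq_zero (fun j hj => ?_)
        have : i ≠ j := by rintro rfl; exact hi hj
        simp [GN.coeff_of, this]
      refine ⟨s ∪ t, ?_⟩
      simp only [map_add, Finset.sum_add_distrib]
      rw [← key a s hs _ Finset.subset_union_left, ← key b t ht _ Finset.subset_union_right]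

lemma GN.grading_p [GradedRing 𝒜] (i : ℤ) (m : GN 𝒜 N) :
    (GN.grading (𝒜 := 𝒜) (N := N)).p i m = GN.of 𝒜 i (GN.coeff 𝒜 i m) := rfl

/-- The additive sum map. -/
def GN.sumHom (𝒜 : ℤ → AddSubgroup A) (N : Type v) [AddCommGroup N] : GN 𝒜 N →+ N :=
  DirectSum.toAddMonoid (fun _ : ℤ => AddMonoidHom.id N)

omit [Module A N] in
lemma GN.sumHom_of (i : ℤ) (n : N) : GN.sumHom 𝒜 N (GN.of 𝒜 i n) = n := by
  change DirectSum.toAddMonoid _ (DirectSum.of (fun _ : ℤ => N) _ _) = _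
  rw [DirectSum.toAddMonoid_of]
  rfl

/-- The counit. -/
noncomputable def GN.eps [GradedRing 𝒜] : GN 𝒜 N →ₗ[A] N :=
  mkLin (𝒜 := 𝒜) (GN.sumHom 𝒜 N) (by
    intro j a ha m
    induction m using GN.induction with
    | h0 => simp
    | h1 k n => rw [GN.smul_of ha, GN.sumHom_of, GN.sumHom_of]
    | h2 x y hx hy => rw [smul_add, map_add, hx, hy, map_add, smul_add])

@[simp] lemma GN.eps_of [GradedRing 𝒜] (i : ℤ) (n : N) :
    (GN.eps (𝒜 := 𝒜) (N := N)) (GN.of 𝒜 i n) = n :=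
  GN.sumHom_of i n

variable {C : Type w} [AddCommGroup C] [Module A C] (g : Grading 𝒜 C)

/-- The transpose of a linear map from a bounded graded module. -/
lemma GN.exists_lift [GradedRing 𝒜] (B : ℕ) (hB : ∀ i : ℤ, (B : ℤ) < |i| → ∀ m, g.p i m = 0)
    (f : C →ₗ[A] N) : ∃ φ : C →ₗ[A] GN 𝒜 N, ∀ i x, GN.coeff 𝒜 i (φ x) = f (g.p i x) := by
  have hco : ∀ (i : ℤ) (x : C), GN.coeff 𝒜 i (∑ j ∈ Finset.Icc (-(B : ℤ)) B,
      GN.of 𝒜 j (f (g.p j x))) = f (g.p i x) := by
    intro i x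
    rw [map_sum]
    simp only [GN.coeff_of, Finset.sum_ite_eq]
    split_ifs with h
    · rfl
    · rw [Finset.mem_Icc, ← abs_le, not_le] at h
      rw [hB i h, map_zero]
  have hsm : ∀ (j : ℤ) (a : A), a ∈ 𝒜 j → ∀ (i : ℤ) (y : GN 𝒜 N),
      GN.coeff 𝒜 i (a • y) = a • GN.coeff 𝒜 (i - j) y := by
    intro j a ha i y
    induction y using GN.induction with
    | h0 => simp
    | h1 k n =>
      rw [GN.smul_of ha, GN.coeff_of, GN.coeff_of]
      by_cases h : i = j + k
      · have h' : i - j = k := by omega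
        rw [if_pos h, if_pos h']
      · have h' : ¬ (i - j = k) := by omega
        rw [if_neg h, if_neg h', smul_zero]
    | h2 x y hx hy => rw [smul_add, map_add, hx, hy, map_add, smul_add]
  refine ⟨mkLin (𝒜 := 𝒜)
    { toFun := fun x => ∑ j ∈ Finset.Icc (-(B : ℤ)) B, GN.of 𝒜 j (f (g.p j x))
      map_zero' := by simp
      map_add' := by intro x y; simp [Finset.sum_add_distrib] } ?_, ?_⟩
  · intro j a ha x
    apply GN.ext'
    intro i
    rw [hsm j a ha]
    change GN.coeff 𝒜 i (∑ j ∈ Finset.Icc (-(B : ℤ)) B, GN.of 𝒜 j (f (g.p j (a • x)))) =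
      a • GN.coeff 𝒜 (i - j) (∑ j ∈ Finset.Icc (-(B : ℤ)) B, GN.of 𝒜 j (f (g.p j x)))
    rw [hco, hco, g.p_smul' j i a x ha, map_smul]
  · intro i x
    exact hco i x

end pullup

end Pool.Agent.Lib.MP_c3b2eb_al
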