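import Mathlib
import Pool.Agent.Lib.MP_c3b2eb_al.Part5

set_option autoImplicit false

universe u v w x

namespace Pool.Agent.Lib.MP_c3b2eb_al

variable {A : Type u} [Ring A] {𝒜 : ℤ → AddSubgroup A}

section choose

variable {C : Type v} [AddCommGroup C] [Module A C] (g : Grading 𝒜 C)

/-- There is a graded-indecomposable direct summand. -/
lemma exists_indec_summand [IsArtinian A C] [Nontrivial C] :
    ∃ (W : Submodule A C) (hW : g.Homog W) (π : C →ₗ[A] W), HomDeg g (g.restrict hW) 0 π ∧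
      π.comp W.subtype = LinearMap.id ∧ Indec (g.restrict hW) := by
  obtain ⟨_, ⟨e, hee, hed, he0, rfl⟩, hmin⟩ := IsArtinian.set_has_minimal
    {W : Submodule A C | ∃ e : C →ₗ[A] C, e.comp e = e ∧ HomDeg g g 0 e ∧ e ≠ 0 ∧
      W = LinearMap.range e}
    (by
      refine ⟨_, LinearMap.id, by simp, ?_, ?_, rfl⟩
      · intro i x; simp
      · intro h
        obtain ⟨x, hx⟩ := exists_ne (0 : C)
        exact hx (by simpa using congrArg (fun f : C →ₗ[A] C => f x) h))
  have hee' : ∀ x, e (e x) = e x := fun x => congrArg (fun f : C →ₗ[A] C => f x) hee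
  have hed' : ∀ i x, g.p i (e x) = e (g.p i x) := by
    intro i x
    have := hed i x
    rwa [add_zero] at this
  have hW : g.Homog (LinearMap.range e) := by
    rintro i _ ⟨x, rfl⟩
    exact ⟨g.p i x, (hed' i x).symm⟩
  refine ⟨LinearMap.range e, hW, e.rangeRestrict, ?_, ?_, ?_, ?_⟩
  · intro i x
    ext
    rw [g.restrict_p, add_zero]
    exact hed' i x
  · ext ⟨_, y, rfl⟩
    exact hee' y
  · obtain ⟨x, hx⟩ : ∃ x, e x ≠ 0 := by
      by_contra hc
      push Not at hc
      exact he0 (LinearMap.ext hc)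
    exact ⟨⟨⟨e x, x, rfl⟩, 0, fun h => hx (congrArg Subtype.val h)⟩⟩
  · intro e' he' hd'
    by_cases h0 : e' = 0
    · exact Or.inl h0
    · right
      have he'e' : ∀ x, e' (e' x) = e' x :=
        fun x => congrArg (fun f : LinearMap.range e →ₗ[A] LinearMap.range e => f x) he'
      have hret : ∀ y : LinearMap.range e, e.rangeRestrict (y : C) = y := by
        rintro ⟨_, y, rfl⟩
        ext
        exact hee' y
      let e2 : C →ₗ[A] C := (LinearMap.range e).subtype.comp (e'.comp e.rangeRestrict)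
      have he2 : ∀ x, e2 x = (e' (e.rangeRestrict x) : LinearMap.range e) := fun x => rfl
      have hr : ¬ LinearMap.range e2 < LinearMap.range e := by
        apply hmin
        refine ⟨e2, ?_, ?_, ?_, rfl⟩
        · ext x
          rw [LinearMap.comp_apply, he2, he2, hret, he'e']
        · intro i x
          rw [add_zero, he2, he2]
          have h1 := hd' i (e.rangeRestrict x)
          rw [add_zero] at h1
          have h2 : (g.restrict hW).p i (e.rangeRestrict x) = e.rangeRestrict (g.p i x) := by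
            ext
            rw [g.restrict_p]
            exact hed' i x
          rw [← h2, ← h1, g.restrict_p]
        · intro h
          apply h0
          ext y
          have := congrArg (fun f : C →ₗ[A] C => f y) h
          change e2 y = 0 at this
          rw [he2, hret] at this
          rw [this]; rfl
      have hle : LinearMap.range e2 ≤ LinearMap.range e := by
        rintro _ ⟨x, rfl⟩
        exact (e' (e.rangeRestrict x)).2
      have heq : LinearMap.range e2 = LinearMap.range e := by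
        by_contra hne
        exact hr (lt_of_le_of_ne hle hne)
      ext y
      obtain ⟨z, hz⟩ : ∃ z, e' z = y := by
        obtain ⟨z, hz⟩ := heq.ge y.2
        exact ⟨e.rangeRestrict z, by ext; exact hz⟩
      rw [← hz, he'e']
      rfl

end choose

/-- Right approximations by graded modules. -/
def Approx {N : Type v} [AddCommGroup N] [Module A N] {C : Type v} [AddCommGroup C] [Module A C]
    (𝒜 : ℤ → AddSubgroup A) (f : C →ₗ[A] N) (W : Submodule A C) : Prop :=
  ∀ (X : Type v) [AddCommGroup X] [Module A X] [Module.Finite A X] (_ : Grading 𝒜 X)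
    (k : X →ₗ[A] N), ∃ h : X →ₗ[A] C, (∀ x, h x ∈ W) ∧ f.comp h = k

lemma homog_span [GradedRing 𝒜] {M : Type v} [AddCommGroup M] [Module A M] (g : Grading 𝒜 M)
    (S : Set M) (hS : ∀ x ∈ S, ∃ k, g.p k x = x) : g.Homog (Submodule.span A S) := by
  have h : Submodule.span A S = sSup {W | ∃ x ∈ S, W = Submodule.span A {x}} := by
    apply le_antisymm
    · rw [Submodule.span_le]
      intro x hx
      have h1 : Submodule.span A {x} ≤ sSup {W | ∃ x ∈ S, W = Submodule.span A {x}} :=
        le_sSup ⟨x, hx, rfl⟩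
      exact h1 (Submodule.mem_span_singleton_self x)
    · refine sSup_le ?_
      rintro _ ⟨x, hx, rfl⟩
      exact Submodule.span_mono (Set.singleton_subset_iff.mpr hx)
  rw [h]
  apply g.homog_sSup
  rintro _ ⟨x, hx, rfl⟩
  obtain ⟨k, hk⟩ := hS x hx
  exact g.homog_span_singleton hk

section main

variable {N : Type v} [AddCommGroup N] [Module A N] {C : Type v} [AddCommGroup C] [Module A C]

lemma exists_minimal [IsArtinian A C] (g : Grading 𝒜 C) (f : C →ₗ[A] N) (hf : Approx 𝒜 f ⊤) :
    ∃ (W : Submodule A C) (hW : g.Homog W), Approx 𝒜 (f.comp W.subtype) ⊤ ∧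
      ∀ W' : Submodule A W, (g.restrict hW).Homog W' → Approx 𝒜 (f.comp W.subtype) W' →
        W' = ⊤ := by
  obtain ⟨W, ⟨hW, hWa⟩, hmin⟩ := IsArtinian.set_has_minimal
    {W : Submodule A C | g.Homog W ∧ Approx 𝒜 f W} ⟨⊤, fun _ _ _ => trivial, hf⟩
  refine ⟨W, hW, ?_, ?_⟩
  · intro X _ _ _ gX k
    obtain ⟨h, hh, hk⟩ := hWa X gX k
    refine ⟨LinearMap.codRestrict W h hh, fun _ => trivial, ?_⟩
    ext x
    exact congrArg (fun f : X →ₗ[A] N => f x) hk
  · intro W' hW' ha
    have h1 : ¬ W'.map W.subtype < W := by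
      apply hmin
      constructor
      · rintro i _ ⟨y, hy, rfl⟩
        exact ⟨_, hW' i y hy, rfl⟩
      · intro X _ _ _ gX k
        obtain ⟨h, hh, hk⟩ := ha X gX k
        refine ⟨W.subtype.comp h, fun x => ⟨h x, hh x, rfl⟩, ?_⟩
        rw [← hk]; rfl
    have h2 : W'.map W.subtype = W := by
      by_contra hne
      exact h1 (lt_of_le_of_ne (Submodule.map_subtype_le W W') hne)
    rw [eq_top_iff]
    intro y _
    have : (y : C) ∈ W'.map W.subtype := by rw [h2]; exact y.2
    obtain ⟨z, hz, hzy⟩ := this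
    have : z = y := Subtype.ext hzy
    rwa [← this]

/-- The retraction. -/
theorem retraction [GradedRing 𝒜] [IsArtinianRing A] [Module.Finite A N] [Module.Finite A C]
    (g : Grading 𝒜 C) (f : C →ₗ[A] N) (hf : Approx 𝒜 f ⊤)
    (hmin : ∀ W' : Submodule A C, g.Homog W' → Approx 𝒜 f W' → W' = ⊤)
    (W : Submodule A C) (hW : g.Homog W) (π : C →ₗ[A] W) (hπ : HomDeg g (g.restrict hW) 0 π)
    (hπ1 : π.comp W.subtype = LinearMap.id) (hind : Indec (g.restrict hW)) :
    ∃ r : N →ₗ[A] W, r.comp (f.comp W.subtype) = LinearMap.id := by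
  classical
  obtain ⟨b, hb⟩ := g.bounded
  obtain ⟨s, hs⟩ := (ringGrading (𝒜 := 𝒜)).bounded
  have hs' : ∀ j : ℤ, (s : ℤ) < |j| → ∀ a ∈ 𝒜 j, a = 0 := by
    intro j hj a ha
    have := hs j hj a
    change GradedRing.proj 𝒜 j a = 0 at this
    rwa [GradedRing.proj_apply, DirectSum.decompose_of_mem_same 𝒜 ha] at this
  have hnt := hind.1
  obtain ⟨g1, hg1⟩ : ∃ g1, g1 = g.restrict hW := ⟨_, rfl⟩
  have hg1p : ∀ i (y : W), ((g1.p i y : W) : C) = g.p i y := by
    intro i y; rw [hg1]; rfl
  rw [← hg1] at hπ hind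
  have hb1 : ∀ i : ℤ, (b : ℤ) < |i| → ∀ m, g1.p i m = 0 := by
    intro i hi m
    ext
    rw [hg1p, hb i hi]; rfl
  have hπ1' : ∀ y : W, π (y : C) = y := fun y => congrArg (fun f : W →ₗ[A] W => f y) hπ1
  obtain ⟨φ, hφ⟩ := GN.exists_lift (N := N) g b hb f
  -- generators
  obtain ⟨T, hT⟩ := (Module.finite_def.mp (inferInstance : Module.Finite A N))
  obtain ⟨R, hR⟩ : ∃ R : ℤ, R = b + 2 * s := ⟨_, rfl⟩
  obtain ⟨G, hG⟩ : ∃ G : Finset (GN 𝒜 N), G = (Finset.Icc (-R) R ×ˢ T).image
    (fun q => GN.of 𝒜 q.1 q.2) := ⟨_, rfl⟩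
  obtain ⟨U, hUdef⟩ : ∃ U, U = Submodule.span A (G : Set (GN 𝒜 N)) := ⟨_, rfl⟩
  have hGU : ∀ i : ℤ, |i| ≤ R → ∀ t ∈ T, GN.of 𝒜 i t ∈ U := by
    intro i hi t ht
    rw [hUdef]
    apply Submodule.subset_span
    rw [hG, Finset.mem_coe, Finset.mem_image]
    exact ⟨(i, t), by rw [Finset.mem_product, Finset.mem_Icc]; exact ⟨abs_le.mp hi, ht⟩, rfl⟩
  have hexp : ∀ (i : ℤ) (a : A) (t : N), GN.of 𝒜 i (a • t) =
      ∑ j ∈ Finset.Icc (-(s : ℤ)) s, (GradedRing.proj 𝒜 j a) • GN.of 𝒜 (i - j) t := by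
    intro i a t
    have h1 : ∑ j ∈ Finset.Icc (-(s : ℤ)) s, GradedRing.proj 𝒜 j a = a := by
      apply (ringGrading (𝒜 := 𝒜)).sum_eq
      intro j hj
      rw [Finset.mem_Icc, ← abs_le, not_le] at hj
      exact hs j hj a
    conv_lhs => rw [← h1, Finset.sum_smul, map_sum]
    refine Finset.sum_congr rfl (fun j _ => ?_)
    rw [GN.smul_of (j := j) (by rw [GradedRing.proj_apply]; exact SetLike.coe_mem _),
      add_sub_cancel]
  have hmemU : ∀ i : ℤ, |i| ≤ (b : ℤ) + s → ∀ n : N, GN.of 𝒜 i n ∈ U := by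
    intro i hi n
    have hn : n ∈ Submodule.span A (T : Set N) := by rw [hT]; trivial
    rw [Submodule.mem_span_finset] at hn
    obtain ⟨c, _, rfl⟩ := hn
    rw [map_sum]
    refine sum_mem (fun t ht => ?_)
    rw [hexp]
    refine sum_mem (fun j hj => U.smul_mem _ (hGU _ ?_ t ht))
    rw [Finset.mem_Icc] at hj
    rw [abs_le] at hi ⊢
    constructor <;> linarith [hi.1, hi.2, hj.1, hj.2]
  have hUh : (GN.grading (𝒜 := 𝒜) (N := N)).Homog U := by
    rw [hUdef]
    apply homog_span
    intro x hx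
    rw [hG, Finset.mem_coe, Finset.mem_image] at hx
    obtain ⟨⟨k, t⟩, hq, rfl⟩ := hx
    refine ⟨k, ?_⟩
    rw [GN.grading_p, GN.coeff_of, if_pos rfl]
  have hUfin : Module.Finite A U := by
    rw [hUdef]
    exact Module.Finite.span_finset A G
  -- the transpose lands in `U`
  have hφexp : ∀ x, φ x = ∑ i ∈ Finset.Icc (-(b : ℤ)) b, GN.of 𝒜 i (f (g.p i x)) := by
    intro x
    apply GN.ext'
    intro i
    rw [hφ, map_sum]
    simp only [GN.coeff_of, Finset.sum_ite_eq]
    split_ifs with h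
    · rfl
    · rw [Finset.mem_Icc, ← abs_le, not_le] at h
      rw [hb i h, map_zero]
  have hφU : ∀ x, φ x ∈ U := by
    intro x
    rw [hφexp]
    refine sum_mem (fun i hi => hmemU i ?_ _)
    rw [Finset.mem_Icc, ← abs_le] at hi
    linarith
  have hepsφ : ∀ x, (GN.eps (𝒜 := 𝒜) (N := N)) (φ x) = f x := by
    intro x
    rw [hφexp, map_sum]
    simp only [GN.eps_of]
    rw [← map_sum]
    congr 1
    apply g.sum_eq
    intro i hi
    rw [Finset.mem_Icc, ← abs_le, not_le] at hi
    exact hb i hi x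
  obtain ⟨φU, hφU'⟩ : ∃ φU : C →ₗ[A] U, ∀ x, ((φU x : U) : GN 𝒜 N) = φ x :=
    ⟨LinearMap.codRestrict U φ hφU, fun x => rfl⟩
  obtain ⟨gU, hgU⟩ : ∃ gU, gU = (GN.grading (𝒜 := 𝒜) (N := N)).restrict hUh := ⟨_, rfl⟩
  have hgUp : ∀ i (y : U), ((gU.p i y : U) : GN 𝒜 N) = GN.of 𝒜 i (GN.coeff 𝒜 i (y : GN 𝒜 N)) := by
    intro i y; rw [hgU]; rfl
  obtain ⟨h, -, hh⟩ := hf U gU ((GN.eps (𝒜 := 𝒜) (N := N)).comp U.subtype)
  have hh' : ∀ u : U, f (h u) = (GN.eps (𝒜 := 𝒜) (N := N)) (u : GN 𝒜 N) :=
    fun u => congrArg (fun f : U →ₗ[A] N => f u) hh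
  have hφdeg : HomDeg g1 gU 0 (φU.comp W.subtype) := by
    intro i y
    ext
    rw [hgUp, add_zero, LinearMap.comp_apply, LinearMap.comp_apply, hφU', hφU', hφ]
    apply GN.ext'
    intro k
    rw [GN.coeff_of, hφ, Submodule.subtype_apply, Submodule.subtype_apply, hg1p, g.p_p]
    split_ifs with hk
    · rfl
    · rw [map_zero]
  obtain ⟨θ, hθ⟩ : ∃ θ : Module.End A W, θ = (π.comp h).comp (φU.comp W.subtype) := ⟨_, rfl⟩
  have hθbij : Function.Bijective (comp g1 g1 0 θ) := by
    by_contra hnb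
    have hbij := bijective_one_sub hind b hb1 hnb
    let E := LinearEquiv.ofBijective (1 - θ : Module.End A W) hbij
    have hE : ∀ y, E.symm y - θ (E.symm y) = y := fun y => E.apply_symm_apply y
    have hker : LinearMap.ker π = ⊤ := by
      apply hmin
      · intro i x hx
        rw [LinearMap.mem_ker] at hx ⊢
        rw [← hπ i x, hx, map_zero]
      · intro X _ _ _ gX k
        obtain ⟨h', -, hk⟩ := hf X gX k
        -- ζ
        let ζ : C →ₗ[A] C := (h.comp φU).comp (W.subtype.comp (E.symm.toLinearMap.comp π)) +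
          LinearMap.id
        let κ : C →ₗ[A] C := LinearMap.id - W.subtype.comp π
        have hκ : ∀ x, π (κ x) = 0 := by
          intro x
          change π (x - (π x : W)) = 0
          rw [map_sub, hπ1', sub_self]
        have hfκ : ∀ x, f (κ (ζ x)) = f x := by
          intro x
          have e1 : ζ x = h (φU ((E.symm (π x) : W) : C)) + x := rfl
          have e2 : π (ζ x) = θ (E.symm (π x)) + π x := by
            rw [e1, map_add, hθ]; rfl
          have e3 : κ (ζ x) = ζ x - (π (ζ x) : W) := rfl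
          have e4 := hE (π x)
          have e5 : (π (ζ x) : W) = E.symm (π x) := by
            rw [e2]
            nth_rewrite 2 [← e4]
            abel
          rw [e3, e5, map_sub, e1, map_add, hh', hφU', hepsφ]
          abel
        refine ⟨κ.comp (ζ.comp h'), fun x => hκ _, ?_⟩
        rw [← hk]
        ext x
        exact hfκ _
    obtain ⟨y, hy⟩ := exists_ne (0 : W)
    apply hy
    rw [← hπ1' y]
    have : (y : C) ∈ LinearMap.ker π := by rw [hker]; trivial
    exact this
  have hcomp : comp g1 g1 0 θ = (comp gU g1 0 (π.comp h)).comp (φU.comp W.subtype) := by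
    rw [hθ]
    exact comp_comp gU g1 g1 0 (π.comp h) (φU.comp W.subtype) hφdeg
  obtain ⟨ψ, hψdeg, hψ⟩ : ∃ ψ : U →ₗ[A] W, HomDeg gU g1 0 ψ ∧ ∀ y : W, ψ (φU (y : C)) = y := by
    let E := LinearEquiv.ofBijective (comp g1 g1 0 θ) hθbij
    refine ⟨E.symm.toLinearMap.comp (comp gU g1 0 (π.comp h)), ?_, ?_⟩
    · intro i u
      apply E.injective
      have h1 := comp_homDeg g1 g1 0 θ i
        ((E.symm.toLinearMap.comp (comp gU g1 0 (π.comp h))) u)
      have h2 : ∀ y, E y = comp g1 g1 0 θ y := fun y => rfl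
      rw [add_zero] at h1 ⊢
      rw [h2, ← h1, ← h2, LinearMap.comp_apply, LinearEquiv.coe_toLinearMap,
        LinearEquiv.apply_symm_apply, LinearMap.comp_apply, LinearEquiv.coe_toLinearMap,
        LinearEquiv.apply_symm_apply]
      have h3 := comp_homDeg gU g1 0 (π.comp h) i u
      rwa [add_zero] at h3
    · intro y
      apply E.injective
      rw [LinearMap.comp_apply, LinearEquiv.coe_toLinearMap, LinearEquiv.apply_symm_apply]
      change _ = comp g1 g1 0 θ y
      rw [hcomp]
      rfl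
  -- the maps Ψ
  obtain ⟨Ψ, hΨ1, hΨ0⟩ : ∃ Ψ : ℤ → N →+ W, (∀ (i : ℤ) (n : N), ∀ hi : |i| ≤ (b : ℤ) + s,
      Ψ i n = ψ ⟨GN.of 𝒜 i n, hmemU i hi n⟩) ∧
      ∀ (i : ℤ) (n : N), ¬ |i| ≤ (b : ℤ) + s → Ψ i n = 0 := by
    refine ⟨fun i => if hi : |i| ≤ (b : ℤ) + s then
      { toFun := fun n => ψ ⟨GN.of 𝒜 i n, hmemU i hi n⟩
        map_zero' := by
          have : (⟨GN.of 𝒜 i 0, hmemU i hi 0⟩ : U) = 0 := by ext; simp
          rw [this, map_zero]
        map_add' := by
          intro n n'
          have : (⟨GN.of 𝒜 i (n + n'), hmemU i hi (n + n')⟩ : U) =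
              ⟨GN.of 𝒜 i n, hmemU i hi n⟩ + ⟨GN.of 𝒜 i n', hmemU i hi n'⟩ := by ext; simp
          rw [this, map_add] } else 0, ?_, ?_⟩
    · intro i n hi
      simp only [dif_pos hi]
      rfl
    · intro i n hi
      simp only [dif_neg hi]
      rfl
  have hΨp : ∀ i n, g1.p i (Ψ i n) = Ψ i n := by
    intro i n
    by_cases hi : |i| ≤ (b : ℤ) + s
    · rw [hΨ1 i n hi]
      have h1 := hψdeg i ⟨GN.of 𝒜 i n, hmemU i hi n⟩
      rw [add_zero] at h1
      rw [h1]
      congr 1
      ext
      rw [hgUp, GN.coeff_of, if_pos rfl]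
    · rw [hΨ0 i n hi, map_zero]
  have hΨb : ∀ i n, (b : ℤ) < |i| → Ψ i n = 0 := by
    intro i n hi
    rw [← hΨp, hb1 i hi]
  have hΨsmul : ∀ j a, a ∈ 𝒜 j → ∀ i n, Ψ (j + i) (a • n) = a • Ψ i n := by
    intro j a ha i n
    by_cases hj : (s : ℤ) < |j|
    · rw [hs' j hj a ha, zero_smul, zero_smul, map_zero]
    · rw [not_lt] at hj
      by_cases hi : |i| ≤ (b : ℤ) + s
      · by_cases hji : |j + i| ≤ (b : ℤ) + s
        · rw [hΨ1 _ _ hji, hΨ1 _ _ hi, ← map_smul]
          congr 1
          ext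
          exact (GN.smul_of ha i n).symm
        · rw [hΨ0 _ _ hji]
          have h1 : g1.p (j + i) (a • Ψ i n) = a • Ψ i n := by
            rw [g1.p_smul j i a _ ha, hΨp]
          rw [← h1, hb1]
          push Not at hji
          have : (0 : ℤ) ≤ s := Int.natCast_nonneg s
          linarith
      · rw [hΨ0 i n hi, smul_zero]
        apply hΨb
        push Not at hi
        have h1 : |i| ≤ |j + i| + |j| := by
          have : i = (j + i) + (-j) := by ring
          calc |i| = |(j + i) + (-j)| := by rw [← this]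
            _ ≤ |j + i| + |-j| := abs_add_le _ _
            _ = |j + i| + |j| := by rw [abs_neg]
        linarith
  have hΨfin : ∀ n, (Function.support (fun i => Ψ i n)).Finite := by
    intro n
    refine (Set.finite_Icc (-(b : ℤ)) b).subset ?_
    intro i hi
    rw [Set.mem_Icc, ← abs_le]
    by_contra hc
    exact hi (hΨb i n (not_le.mp hc))
  obtain ⟨q, hq⟩ : ∃ q : N →ₗ[A] W, ∀ n, q n = ∑ᶠ i, Ψ i n := by
    refine ⟨mkLin (𝒜 := 𝒜)
      { toFun := fun n => ∑ᶠ i, Ψ i n
        map_zero' := by simp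
        map_add' := by
          intro n n'
          rw [← finsum_add_distrib (hΨfin n) (hΨfin n')]
          exact finsum_congr (fun i => map_add _ _ _) } ?_, fun n => rfl⟩
    intro j a ha n
    change ∑ᶠ i, Ψ i (a • n) = a • ∑ᶠ i, Ψ i n
    rw [smul_finsum' a (hΨfin n), ← finsum_comp_equiv (Equiv.addLeft j)]
    exact finsum_congr (fun i => hΨsmul j a ha i n)
  have hqp : ∀ i n, g1.p i (q n) = Ψ i n := by
    intro i n
    rw [hq, finsum_eq_sum_of_support_subset (s := insert i (hΨfin n).toFinset) _ (by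
      intro k hk
      rw [Finset.coe_insert]
      exact Or.inr ((hΨfin n).mem_toFinset.mpr hk)), map_sum, Finset.sum_eq_single i]
    · exact hΨp i n
    · intro k _ hk
      rw [← hΨp k n, g1.p_ne i k _ (Ne.symm hk)]
    · intro hi
      exact absurd (Finset.mem_insert_self _ _) hi
  have hone : comp g1 g1 0 (q.comp (f.comp W.subtype)) = LinearMap.id := by
    ext y
    congr 1
    rw [comp_apply_finset g1 g1 0 _ y (Finset.Icc (-(b : ℤ)) b) (by
      intro i hi
      rw [Finset.mem_Icc, ← abs_le, not_le] at hi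
      exact hb1 i hi y)]
    have h1 : ∀ i ∈ Finset.Icc (-(b : ℤ)) b,
        g1.p (i + 0) ((q.comp (f.comp W.subtype)) (g1.p i y)) = g1.p i y := by
      intro i hi
      rw [Finset.mem_Icc, ← abs_le] at hi
      have hi' : |i| ≤ (b : ℤ) + s := by
        have : (0 : ℤ) ≤ s := Int.natCast_nonneg s
        linarith
      rw [add_zero, LinearMap.comp_apply, hqp, hΨ1 i _ hi']
      conv_rhs => rw [← hψ (g1.p i y)]
      congr 1
      ext
      rw [hφU']
      apply GN.ext'
      intro k
      rw [hφ, GN.coeff_of, LinearMap.comp_apply, Submodule.subtype_apply, hg1p, g.p_p]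
      split_ifs with hk
      · rfl
      · rw [map_zero]
    rw [Finset.sum_congr rfl h1]
    apply g1.sum_eq
    intro i hi
    rw [Finset.mem_Icc, ← abs_le, not_le] at hi
    exact hb1 i hi y
  have hfinal : Function.Bijective (q.comp (f.comp W.subtype) : Module.End A W) := by
    apply bijective_of_comp_zero hind b hb1
    rw [hone]
    exact Function.bijective_id
  let E := LinearEquiv.ofBijective (q.comp (f.comp W.subtype) : Module.End A W) hfinal
  refine ⟨E.symm.toLinearMap.comp q, ?_⟩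
  ext y
  congr 1
  exact E.symm_apply_apply y

end main

end Pool.Agent.Lib.MP_c3b2eb_al
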