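import Mathlib
import Pool.Agent.Lib.MP_c3b2eb_al.Part6

set_option autoImplicit false

universe u v w x

namespace Pool.Agent.Lib.MP_c3b2eb_al

variable {A : Type u} [Ring A] {𝒜 : ℤ → AddSubgroup A}

namespace Grading

/-- Transport of a grading along an equivalence. -/
def ofEquiv {M : Type v} [AddCommGroup M] [Module A M] {M' : Type w} [AddCommGroup M']
    [Module A M'] (g : Grading 𝒜 M) (e : M ≃ₗ[A] M') : Grading 𝒜 M' where
  p i := (e.toAddEquiv.toAddMonoidHom.comp (g.p i)).comp e.symm.toAddEquiv.toAddMonoidHom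
  p_self i m := by
    change e (g.p i (e.symm (e (g.p i (e.symm m))))) = e (g.p i (e.symm m))
    rw [e.symm_apply_apply, g.p_self]
  p_ne i j m h := by
    change e (g.p i (e.symm (e (g.p j (e.symm m))))) = 0
    rw [e.symm_apply_apply, g.p_ne i j _ h, map_zero]
  p_smul i j a m ha := by
    change e (g.p (i + j) (e.symm (a • m))) = a • e (g.p j (e.symm m))
    rw [map_smul, g.p_smul i j a _ ha, map_smul]
  fin m := by
    obtain ⟨s, hs⟩ := g.fin (e.symm m)
    refine ⟨s, ?_⟩
    change m = ∑ i ∈ s, e (g.p i (e.symm m))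
    rw [← map_sum, ← hs, e.apply_symm_apply]

/-- The product of two gradings. -/
def prod {M : Type v} [AddCommGroup M] [Module A M] {M' : Type w} [AddCommGroup M']
    [Module A M'] (g : Grading 𝒜 M) (g' : Grading 𝒜 M') : Grading 𝒜 (M × M') where
  p i := (g.p i).prodMap (g'.p i)
  p_self i m := by
    ext
    · exact g.p_self i m.1
    · exact g'.p_self i m.2
  p_ne i j m h := by
    ext
    · exact g.p_ne i j m.1 h
    · exact g'.p_ne i j m.2 h
  p_smul i j a m ha := by
    ext
    · exact g.p_smul i j a m.1 ha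
    · exact g'.p_smul i j a m.2 ha
  fin m := by
    refine ⟨(g.finite_supp m.1).toFinset ∪ (g'.finite_supp m.2).toFinset, ?_⟩
    ext
    · rw [Prod.fst_sum]
      refine (g.sum_eq (fun i hi => ?_)).symm
      by_contra hc
      exact hi (Finset.mem_union_left _ ((g.finite_supp m.1).mem_toFinset.mpr hc))
    · rw [Prod.snd_sum]
      refine (g'.sum_eq (fun i hi => ?_)).symm
      by_contra hc
      exact hi (Finset.mem_union_right _ ((g'.finite_supp m.2).mem_toFinset.mpr hc))

/-- The grading of a trivial module. -/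
def triv (M : Type v) [AddCommGroup M] [Module A M] [Subsingleton M] : Grading 𝒜 M where
  p _ := 0
  p_self _ _ := Subsingleton.elim _ _
  p_ne _ _ _ _ := Subsingleton.elim _ _
  p_smul _ _ _ _ _ := Subsingleton.elim _ _
  fin _ := ⟨∅, Subsingleton.elim _ _⟩

end Grading

theorem core [GradedRing 𝒜] [IsArtinianRing A] (ℓ : ℕ∞) :
    ∀ (N : Type v) [AddCommGroup N] [Module A N] [Module.Finite A N], Module.length A N = ℓ →
    ∀ (C : Type v) [AddCommGroup C] [Module A C] [Module.Finite A C] (_ : Grading 𝒜 C)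
      (f : C →ₗ[A] N), Approx 𝒜 f ⊤ → Nonempty (Grading 𝒜 N) := by
  induction ℓ using WellFoundedLT.induction with
  | ind ℓ ih =>
  intro N _ _ _ hℓ C _ _ _ g f hf
  rcases subsingleton_or_nontrivial N with hN | hN
  · exact ⟨Grading.triv N⟩
  obtain ⟨W, hW, hWa, hWmin⟩ := exists_minimal g f hf
  have hWnt : Nontrivial W := by
    by_contra hc
    rw [not_nontrivial_iff_subsingleton] at hc
    obtain ⟨n0, hn0⟩ := exists_ne (0 : N)
    have hh : (GN.grading (𝒜 := 𝒜) (N := N)).p 0 (GN.of 𝒜 0 n0) = GN.of 𝒜 0 n0 := by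
      rw [GN.grading_p, GN.coeff_of, if_pos rfl]
    have hX := (GN.grading (𝒜 := 𝒜) (N := N)).homog_span_singleton hh
    obtain ⟨h, -, hk⟩ := hWa (Submodule.span A {GN.of 𝒜 0 n0})
      ((GN.grading (𝒜 := 𝒜) (N := N)).restrict hX)
      ((GN.eps (𝒜 := 𝒜) (N := N)).comp (Submodule.subtype _))
    have h1 := congrArg (fun q : (Submodule.span A {GN.of 𝒜 0 n0}) →ₗ[A] N =>
      q ⟨GN.of 𝒜 0 n0, Submodule.mem_span_singleton_self _⟩) hk
    simp only [LinearMap.comp_apply, Submodule.subtype_apply, GN.eps_of] at h1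
    apply hn0
    rw [← h1, Subsingleton.elim (h _) 0]
    simp
  obtain ⟨W1, hW1, π, hπ, hπ1, hind⟩ := exists_indec_summand (g.restrict hW)
  obtain ⟨r, hr⟩ := retraction (g.restrict hW) (f.comp W.subtype) hWa hWmin W1 hW1 π hπ hπ1 hind
  obtain ⟨ι, hι⟩ : ∃ ι, ι = (f.comp W.subtype).comp W1.subtype := ⟨_, rfl⟩
  rw [← hι] at hr
  have hr' : ∀ y, r (ι y) = y := fun y => congrArg (fun q : W1 →ₗ[A] W1 => q y) hr
  have hnt := hind.1
  have hne : LinearMap.ker r ≠ ⊤ := by
    intro h
    obtain ⟨y, hy⟩ := exists_ne (0 : W1)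
    apply hy
    rw [← hr' y]
    have : ι y ∈ LinearMap.ker r := by rw [h]; trivial
    exact this
  let f' : C →ₗ[A] LinearMap.ker r := LinearMap.codRestrict (LinearMap.ker r)
    ((LinearMap.id - ι.comp r).comp f) (by
      intro c
      rw [LinearMap.mem_ker]
      change r (f c - ι (r (f c))) = 0
      rw [map_sub, hr', sub_self])
  have hf' : ∀ c, ((f' c : LinearMap.ker r) : N) = f c - ι (r (f c)) := fun c => rfl
  have hker : Nonempty (Grading 𝒜 (LinearMap.ker r)) := by
    refine ih (Module.length A (LinearMap.ker r)) ?_ (LinearMap.ker r) rfl C g f' ?_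
    · rw [← hℓ]; exact Submodule.length_lt hne
    · intro X _ _ _ gX k
      obtain ⟨h, -, hk⟩ := hf X gX ((LinearMap.ker r).subtype.comp k)
      refine ⟨h, fun _ => trivial, ?_⟩
      ext x
      have h1 : f (h x) = k x := congrArg (fun q : X →ₗ[A] N => q x) hk
      rw [LinearMap.comp_apply, hf', h1]
      have h2 : r (k x : N) = 0 := (k x).2
      rw [h2, map_zero, sub_zero]
  obtain ⟨gk⟩ := hker
  -- assemble
  let e : (W1 × LinearMap.ker r) ≃ₗ[A] N := LinearEquiv.ofBijective
    (ι.coprod (LinearMap.ker r).subtype) (by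
      constructor
      · rw [injective_iff_map_eq_zero]
        rintro ⟨a, b⟩ hab
        have hab' : ι a + (b : N) = 0 := hab
        have h1 : a = 0 := by
          have := congrArg r hab'
          rw [map_add, hr', map_zero] at this
          have hb : r (b : N) = 0 := b.2
          rwa [hb, add_zero] at this
        rw [h1, map_zero, zero_add] at hab'
        ext
        · rw [h1]; rfl
        · exact hab'
      · intro n
        refine ⟨(r n, ⟨n - ι (r n), ?_⟩), ?_⟩
        · rw [LinearMap.mem_ker, map_sub, hr', sub_self]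
        · change ι (r n) + (n - ι (r n)) = n
          abel)
  exact ⟨(((g.restrict hW).restrict hW1).prod gk).ofEquiv e⟩

end Pool.Agent.Lib.MP_c3b2eb_al
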