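import Mathlib
import Pool.Agent.Lib.MP_c3b2eb_al.Defs
import Pool.Agent.Lib.MP_c3b2eb_al.Part7

set_option autoImplicit false

universe u v

open MulOpposite

namespace Pool.Agent.Lib.MP_c3b2eb_al

section transfer

variable {R : Type u} [Ring R] (𝒜 : ℤ → AddSubgroup R)

/-- The grading of the opposite ring. -/
def opGr (i : ℤ) : AddSubgroup Rᵐᵒᵖ := (𝒜 i).comap (opAddEquiv (α := R)).symm.toAddMonoidHom

lemma mem_opGr {i : ℤ} {a : Rᵐᵒᵖ} : a ∈ opGr 𝒜 i ↔ unop a ∈ 𝒜 i := Iff.rfl

instance opGraded [GradedRing 𝒜] : SetLike.GradedMonoid (opGr 𝒜) where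
  one_mem := by
    rw [mem_opGr]
    exact SetLike.GradedOne.one_mem
  mul_mem i j a b ha hb := by
    rw [mem_opGr] at *
    rw [unop_mul, add_comm]
    exact SetLike.GradedMul.mul_mem hb ha

/-- The inclusion of components. -/
def opIncl (i : ℤ) : 𝒜 i →+ opGr 𝒜 i where
  toFun a := ⟨op (a : R), a.2⟩
  map_zero' := rfl
  map_add' _ _ := rfl

noncomputable instance opGradedRing [GradedRing 𝒜] : GradedRing (opGr 𝒜) :=
  { opGraded 𝒜 with
    decompose' := fun x => DirectSum.map (opIncl 𝒜) (DirectSum.decompose 𝒜 (unop x))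
    left_inv := by
      intro x
      have h : ∀ y : R, DirectSum.coeAddMonoidHom (opGr 𝒜)
          (DirectSum.map (opIncl 𝒜) (DirectSum.decompose 𝒜 y)) = op y := by
        intro y
        refine DirectSum.Decomposition.inductionOn 𝒜 ?_ ?_ ?_ y
        · simp
        · intro i a
          rw [DirectSum.decompose_coe, DirectSum.map_of, DirectSum.coeAddMonoidHom_of]
          rfl
        · intro a b ha hb
          rw [DirectSum.decompose_add, map_add, map_add, ha, hb, op_add]
      exact h (unop x)
    right_inv := by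
      intro x
      induction x using DirectSum.induction_on with
      | zero => simp
      | of i a =>
        rw [DirectSum.coeAddMonoidHom_of]
        have : unop (a : Rᵐᵒᵖ) ∈ 𝒜 i := a.2
        beta_reduce
        rw [DirectSum.decompose_of_mem 𝒜 this, DirectSum.map_of]
        rfl
      | add a b ha hb =>
        beta_reduce at ha hb ⊢
        rw [map_add, unop_add, DirectSum.decompose_add, map_add, ha, hb] }

variable {𝒜} {M : Type v} [AddCommGroup M] [Module Rᵐᵒᵖ M]

/-- From a graded right module to projections. -/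
noncomputable def toGrading {𝓜 : ℤ → AddSubgroup M} (h : IsGrading 𝒜 𝓜) : Grading (opGr 𝒜) M := by
  classical
  letI : DirectSum.Decomposition 𝓜 := h.isInternal.chooseDecomposition
  exact
  { p := fun i =>
      { toFun := fun m => (DirectSum.decompose 𝓜 m i : M)
        map_zero' := by simp
        map_add' := by intro a b; simp }
    p_self := by
      intro i m
      exact DirectSum.decompose_of_mem_same 𝓜 (SetLike.coe_mem _)
    p_ne := by
      intro i j m hij
      exact DirectSum.decompose_of_mem_ne 𝓜 (SetLike.coe_mem _) (Ne.symm hij)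
    p_smul := by
      intro i j a m ha
      change (DirectSum.decompose 𝓜 (a • m) (i + j) : M) = a • (DirectSum.decompose 𝓜 m j : M)
      refine DirectSum.Decomposition.inductionOn 𝓜 ?_ ?_ ?_ m
      · simp
      · intro k x
        have hx : a • (x : M) ∈ 𝓜 (k + i) := h.smul_mem k i x x.2 (unop a) ha
        by_cases hk : k = j
        · subst hk
          rw [add_comm i k, DirectSum.decompose_of_mem_same 𝓜 hx,
            DirectSum.decompose_of_mem_same 𝓜 x.2]
        · rw [DirectSum.decompose_of_mem_ne 𝓜 hx (by omega),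
            DirectSum.decompose_of_mem_ne 𝓜 x.2 hk, smul_zero]
      · intro x y hx hy
        rw [smul_add, DirectSum.decompose_add, DirectSum.add_apply, AddSubgroup.coe_add, hx, hy,
          DirectSum.decompose_add, DirectSum.add_apply, AddSubgroup.coe_add, smul_add]
    fin := by
      intro m
      exact ⟨(DirectSum.decompose 𝓜 m).support, (DirectSum.sum_support_decompose 𝓜 m).symm⟩ }

/-- From projections to a graded right module. -/
lemma ofGrading (g : Grading (opGr 𝒜) M) :
    IsGrading 𝒜 (fun i => (g.p i).range) := by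
  classical
  have hp : ∀ (i : ℤ) (m : M), m ∈ (g.p i).range → g.p i m = m := by
    rintro i _ ⟨x, rfl⟩
    exact g.p_self i x
  have key : ∀ (j : ℤ) (x : DirectSum ℤ fun i => (g.p i).range),
      g.p j (DirectSum.coeAddMonoidHom (fun i => (g.p i).range) x) = (x j : M) := by
    intro j x
    induction x using DirectSum.induction_on with
    | zero => simp
    | of i a =>
      rw [DirectSum.coeAddMonoidHom_of]
      by_cases h : i = j
      · subst h
        rw [DirectSum.of_eq_same, hp i a a.2]
      · rw [DirectSum.of_eq_of_ne _ _ _ (Ne.symm h), ← hp i a a.2, g.p_ne j i _ (Ne.symm h)]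
        rfl
    | add a b ha hb => rw [map_add, map_add, ha, hb]; rfl
  constructor
  · constructor
    · rw [injective_iff_map_eq_zero]
      intro x hx
      refine DFinsupp.ext (fun j => ?_)
      ext
      rw [← key j x, hx, map_zero]
      rfl
    · intro m
      obtain ⟨s, hs⟩ := g.fin m
      refine ⟨∑ i ∈ s, DirectSum.of (fun i => (g.p i).range) i ⟨g.p i m, m, rfl⟩, ?_⟩
      rw [map_sum]
      simp only [DirectSum.coeAddMonoidHom_of]
      exact hs.symm
  · rintro i j _ ⟨x, rfl⟩ r hr
    refine ⟨op r • x, ?_⟩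
    rw [add_comm i j]
    exact g.p_smul j i (op r) x hr

/-- A right artinian ring has artinian opposite. -/
lemma artinian_op [IsArtinian Rᵐᵒᵖ R] : IsArtinianRing Rᵐᵒᵖ := by
  let e : R ≃ₗ[Rᵐᵒᵖ] Rᵐᵒᵖ :=
    { (opAddEquiv (α := R)) with
      map_smul' := by
        intro a x
        change op (a • x) = a * op x
        induction a using MulOpposite.rec' with
        | h a => rfl }
  exact isArtinian_of_linearEquiv e

end transfer

/-- If a finitely generated right module over a `ℤ`-graded right artinian ring has a right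
approximation by finitely generated gradable modules, then it is gradable. -/
theorem gradable_of_approx (R : Type u) [Ring R] (𝒜 : ℤ → AddSubgroup R) [GradedRing 𝒜] [IsArtinian Rᵐᵒᵖ R]
    (N : Type v) [AddCommGroup N] [Module Rᵐᵒᵖ N] [Module.Finite Rᵐᵒᵖ N]
    (hN : ∃ (C : Type v) (_ : AddCommGroup C) (_ : Module Rᵐᵒᵖ C) (f : C →ₗ[Rᵐᵒᵖ] N),
      IsRightGradableApproximation 𝒜 f) :
    Gradable 𝒜 N := by
  obtain ⟨C, _, _, f, hC, ⟨M, _, _, 𝓜, hM, ⟨e⟩⟩, hf⟩ := hN
  have : IsArtinianRing Rᵐᵒᵖ := artinian_op
  have gC : Grading (opGr 𝒜) C := (toGrading hM).ofEquiv e.symm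
  obtain ⟨gN⟩ := core (𝒜 := opGr 𝒜) (Module.length Rᵐᵒᵖ N) N rfl C gC f (by
    intro X _ _ _ gX k
    obtain ⟨h, hh⟩ := hf X inferInstance
      ⟨X, inferInstance, inferInstance, _, ofGrading gX, ⟨LinearEquiv.refl _ _⟩⟩ k
    exact ⟨h, fun _ => trivial, hh.symm⟩)
  exact ⟨N, inferInstance, inferInstance, _, ofGrading gN, ⟨LinearEquiv.refl _ _⟩⟩

end Pool.Agent.Lib.MP_c3b2eb_al
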